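import Pool.Agent.Lib.MP_9cae81_R.Defs

open Finset Filter MeasureTheory
open scoped BigOperators Topology

namespace Pool.Agent.Lib.MP_9cae81_R

variable {V : Type} [DecidableEq V]

private theorem B1_ins (F : Finset (Cl V)) (c : Cl V) :
    SatF (insert c F) ↔ ∃ σ : V → Bool, clT σ c ∧ ∀ c' ∈ F, clT σ c' := by
  unfold SatF
  simp only [Finset.forall_mem_insert]

private theorem B1_sub (F : Finset (Cl V)) (c : Cl V) (h : SatF (insert c F)) : SatF F := by
  obtain ⟨σ, -, h2⟩ := (B1_ins F c).1 h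
  exact ⟨σ, h2⟩

private theorem B1_pair (F : Finset (Cl V)) (a b : Lt V) :
    SatF (insert (cp a b) F) ↔ SatF (insert (cu a) F) ∨ SatF (insert (cu b) F) := by
  rw [B1_ins, B1_ins, B1_ins]
  constructor
  · rintro ⟨σ, h1, h2⟩
    rcases h1 with h1 | h1
    · exact Or.inl ⟨σ, h1, h2⟩
    · exact Or.inr ⟨σ, h1, h2⟩
  · rintro (⟨σ, h1, h2⟩ | ⟨σ, h1, h2⟩)
    · exact ⟨σ, Or.inl h1, h2⟩
    · exact ⟨σ, Or.inr h1, h2⟩

private theorem B1_triple (F : Finset (Cl V)) (a b c : Lt V) :
    SatF (insert (ct a b c) F) ↔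
      SatF (insert (cu a) F) ∨ SatF (insert (cu b) F) ∨ SatF (insert (cu c) F) := by
  rw [B1_ins, B1_ins, B1_ins, B1_ins]
  constructor
  · rintro ⟨σ, h1, h2⟩
    rcases h1 with h1 | h1 | h1
    · exact Or.inl ⟨σ, h1, h2⟩
    · exact Or.inr (Or.inl ⟨σ, h1, h2⟩)
    · exact Or.inr (Or.inr ⟨σ, h1, h2⟩)
  · rintro (⟨σ, h1, h2⟩ | ⟨σ, h1, h2⟩ | ⟨σ, h1, h2⟩)
    · exact ⟨σ, Or.inl h1, h2⟩
    · exact ⟨σ, Or.inr (Or.inl h1), h2⟩
    · exact ⟨σ, Or.inr (Or.inr h1), h2⟩

private theorem B1_one {F : Finset (Cl V)} (h : ¬ SatF F) : un F = 1 := by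
  unfold un
  rw [if_neg h]

private theorem B1_zero {F : Finset (Cl V)} (h : SatF F) : un F = 0 := by
  unfold un
  rw [if_pos h]

/-- `fr` is an indicator: `un F ≤ un (insert (cu a) F)` and both are `0` or `1`. -/
theorem fr_zero_or_one (F : Finset (Cl V)) (a : Lt V) : fr F a = 0 ∨ fr F a = 1 := by
  unfold fr
  by_cases hF : SatF F
  · by_cases ha : SatF (insert (cu a) F)
    · left; rw [B1_zero ha, B1_zero hF]; norm_num
    · right; rw [B1_one ha, B1_zero hF]; norm_num
  · have ha : ¬ SatF (insert (cu a) F) := fun h => hF (B1_sub F _ h)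
    left; rw [B1_one ha, B1_one hF]; norm_num

/-- Adding a 2-clause kills satisfiability iff each of its two literals does: if `F` is
unsatisfiable all terms vanish; if `F` is satisfiable then `insert (cp a b) F` is unsatisfiable iff
every model of `F` makes `a` and `b` false iff `insert (cu a) F` and `insert (cu b) F` are both
unsatisfiable. -/
theorem un_pair (F : Finset (Cl V)) (a b : Lt V) :
    un (insert (cp a b) F) - un F = fr F a * fr F b := by
  unfold fr
  by_cases hF : SatF F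
  · rw [B1_zero hF]
    by_cases ha : SatF (insert (cu a) F)
    · rw [B1_zero ha, B1_zero ((B1_pair F a b).2 (Or.inl ha))]; norm_num
    · by_cases hb : SatF (insert (cu b) F)
      · rw [B1_zero hb, B1_zero ((B1_pair F a b).2 (Or.inr hb))]; norm_num
      · rw [B1_one ha, B1_one hb, B1_one (fun h => ((B1_pair F a b).1 h).elim ha hb)]; norm_num
  · rw [B1_one hF, B1_one (fun h => hF (B1_sub F _ h)), B1_one (fun h => hF (B1_sub F _ h)),
      B1_one (fun h => hF (B1_sub F _ h))]
    norm_num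

/-- The same for 3-clauses. -/
theorem un_triple (F : Finset (Cl V)) (a b c : Lt V) :
    un (insert (ct a b c) F) - un F = fr F a * fr F b * fr F c := by
  unfold fr
  by_cases hF : SatF F
  · rw [B1_zero hF]
    by_cases ha : SatF (insert (cu a) F)
    · rw [B1_zero ha, B1_zero ((B1_triple F a b c).2 (Or.inl ha))]; norm_num
    · by_cases hb : SatF (insert (cu b) F)
      · rw [B1_zero hb, B1_zero ((B1_triple F a b c).2 (Or.inr (Or.inl hb)))]; norm_num
      · by_cases hc : SatF (insert (cu c) F)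
        · rw [B1_zero hc, B1_zero ((B1_triple F a b c).2 (Or.inr (Or.inr hc)))]; norm_num
        · rw [B1_one ha, B1_one hb, B1_one hc,
            B1_one (fun h => ((B1_triple F a b c).1 h).elim ha (fun h' => h'.elim hb hc))]
          norm_num
  · rw [B1_one hF, B1_one (fun h => hF (B1_sub F _ h)), B1_one (fun h => hF (B1_sub F _ h)),
      B1_one (fun h => hF (B1_sub F _ h)), B1_one (fun h => hF (B1_sub F _ h))]
    norm_num

/-- If a model `σ` of `F` satisfies the literal `a`, then `fr F a = 0`; and `fr F a = 0` if `F` is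
unsatisfiable.  Hence at most one of `a`, `ng a` has `fr = 1`: `fr F a + fr F (ng a) ≤ 1`. -/
theorem fr_add_ng (F : Finset (Cl V)) (a : Lt V) : fr F a + fr F (ng a) ≤ 1 := by
  unfold fr
  by_cases hF : SatF F
  · rw [B1_zero hF]
    obtain ⟨σ, hσ⟩ := hF
    by_cases ha : σ a.1 = a.2
    · have h1 : SatF (insert (cu a) F) := (B1_ins F _).2 ⟨σ, ha, hσ⟩
      rw [B1_zero h1]
      linarith [un_le_one (insert (cu (ng a)) F)]
    · have h2 : σ (ng a).1 = (ng a).2 := by
        show σ a.1 = !a.2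
        cases h3 : σ a.1 <;> cases h4 : a.2 <;> simp_all
      have h1 : SatF (insert (cu (ng a)) F) := (B1_ins F _).2 ⟨σ, h2, hσ⟩
      rw [B1_zero h1]
      linarith [un_le_one (insert (cu a) F)]
  · rw [B1_one hF]
    linarith [un_le_one (insert (cu a) F), un_le_one (insert (cu (ng a)) F)]

/-- `fr (le2 F) a ≤ fr F a` if `F` is satisfiable; in general
`(1 - un F) * fr (le2 F) a ≤ fr F a`. -/
theorem fr_le2 (F : Finset (Cl V)) (a : Lt V) : (1 - un F) * fr (le2 F) a ≤ fr F a := by
  unfold fr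
  by_cases hF : SatF F
  · have h2 : SatF (le2 F) := by
      obtain ⟨σ, hσ⟩ := hF
      exact ⟨σ, fun c hc => hσ c (Finset.mem_filter.1 hc).1⟩
    rw [B1_zero hF, B1_zero h2]
    have h3 : un (insert (cu a) (le2 F)) ≤ un (insert (cu a) F) :=
      un_sem.mono (Finset.insert_subset_insert _ (Finset.filter_subset _ _))
    linarith
  · rw [B1_one hF, B1_one (fun h => hF (B1_sub F _ h))]
    norm_num

end Pool.Agent.Lib.MP_9cae81_R
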