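import Pool.Agent.Lib.MP_9cae81_R.Defs
import Pool.Agent.Lib.MP_9cae81_R.Mg.G009

open Finset Filter MeasureTheory
open scoped BigOperators Topology

namespace Pool.Agent.Lib.MP_9cae81_R

variable {ι κ : Type} [Fintype ι] [DecidableEq ι] [Fintype κ] [DecidableEq κ]

/-- Only the coordinates satisfying `P` matter if `g` looks only at them: `EE_pimg` with
`φ c = if P c then some c else none`, for which `pimg φ F = F.filter P`. -/
theorem EE_filter (q : ι → ℝ) (P : ι → Prop) [DecidablePred P] (g : Finset ι → ℝ) :
    EE q (fun F => g (F.filter P)) = EE (fun c => if P c then q c else 0) g := by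
  have h := EE_pimg q (fun c => if P c then some c else none) g
  have hiff : ∀ c k : ι, ((if P c then some c else none) = some k) ↔ (c = k ∧ P k) := by
    intro c k
    by_cases hc : P c
    · rw [if_pos hc, Option.some.injEq]
      constructor
      · rintro rfl; exact ⟨rfl, hc⟩
      · exact fun h => h.1
    · rw [if_neg hc]
      constructor
      · intro h; exact absurd h (by simp)
      · rintro ⟨rfl, h⟩; exact absurd h hc
  have h1 : ∀ F : Finset ι, pimg (fun c => if P c then some c else none) F = F.filter P := by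
    intro F
    ext k
    unfold pimg
    rw [Finset.mem_filter, Finset.mem_filter]
    constructor
    · rintro ⟨_, c, hc, hck⟩
      obtain ⟨h2, h3⟩ := (hiff c k).1 hck
      rw [h2] at hc
      exact ⟨hc, h3⟩
    · rintro ⟨hk, hP⟩
      exact ⟨Finset.mem_univ k, k, hk, (hiff k k).2 ⟨rfl, hP⟩⟩
  have h2 : (fun k => ∑ c, if (if P c then some c else none) = some k then q c else 0) =
      (fun c => if P c then q c else 0) := by
    funext k
    rw [Finset.sum_eq_single k]
    · by_cases hP : P k
      · rw [if_pos ((hiff k k).2 ⟨rfl, hP⟩), if_pos hP]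
      · rw [if_neg (fun h => hP ((hiff k k).1 h).2), if_neg hP]
    · intro c _ hck
      rw [if_neg (fun h => hck ((hiff c k).1 h).1)]
    · intro h; exact absurd (Finset.mem_univ k) h
  rw [h2] at h
  rw [← h]
  congr 1
  funext F
  rw [h1]

private theorem A4_embed_eq (q : ι → ℝ) (e : ι ↪ κ) (g : Finset κ → ℝ) :
    EE q (fun F => g (F.map e)) = EE (fun k => ∑ c, if e c = k then q c else 0) g := by
  have h := EE_pimg q (fun c => some (e c)) g
  have h1 : ∀ F : Finset ι, pimg (fun c => some (e c)) F = F.map e := by
    intro F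
    ext k
    unfold pimg
    rw [Finset.mem_filter, Finset.mem_map]
    constructor
    · rintro ⟨_, c, hc, hck⟩
      exact ⟨c, hc, Option.some.inj hck⟩
    · rintro ⟨c, hc, hck⟩
      exact ⟨Finset.mem_univ k, c, hc, congrArg some hck⟩
  simp only [h1, Option.some.injEq] at h
  exact h

/-- Relabelling: `EE_pimg` with `φ c = some (e c)`. -/
theorem EE_equiv (e : ι ≃ κ) (q : κ → ℝ) (g : Finset κ → ℝ) :
    EE (fun c => q (e c)) (fun F => g (F.map e.toEmbedding)) = EE q g := by
  rw [A4_embed_eq]
  congr 1
  funext k
  rw [Finset.sum_eq_single (e.symm k)]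
  · simp
  · intro c _ hc
    rw [if_neg]
    intro h
    apply hc
    rw [← h]
    simp
  · intro h; exact absurd (Finset.mem_univ _) h

/-- Monotonicity in the intensities: by `EE_hasDerivAt` (direction `r = q' - q ≥ 0`) the derivative
of `t ↦ EE (q + t r) g` on `[0,1]` is `∑ r c * EE (g (insert c F) - g F) ≥ 0`. -/
theorem EE_mono_q {q q' : ι → ℝ} (hq : ∀ c, 0 ≤ q c) (hqq : ∀ c, q c ≤ q' c) {g : Finset ι → ℝ}
    (hg : ∀ F G : Finset ι, F ⊆ G → g F ≤ g G) : EE q g ≤ EE q' g := by
  have hd := EE_hasDerivAt q (fun c => q' c - q c) g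
  have hcont : ContinuousOn (fun t => EE (fun c => q c + t * (q' c - q c)) g) (Set.Icc (0 : ℝ) 1) :=
    fun t _ => (hd t).continuousAt.continuousWithinAt
  have hmono : MonotoneOn (fun t => EE (fun c => q c + t * (q' c - q c)) g) (Set.Icc (0 : ℝ) 1) := by
    refine monotoneOn_of_deriv_nonneg (convex_Icc 0 1) hcont ?_ ?_
    · intro t _
      exact (hd t).differentiableAt.differentiableWithinAt
    · intro t ht
      rw [interior_Icc] at ht
      rw [(hd t).deriv]
      refine Finset.sum_nonneg fun c _ => mul_nonneg (by have := hqq c; linarith) ?_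
      refine EE_nonneg (fun c => ?_) (fun F => ?_)
      · have h1 := hq c
        have h2 := hqq c
        have h3 := mul_nonneg ht.1.le (by linarith : 0 ≤ q' c - q c)
        linarith
      · have := hg F (insert c F) (Finset.subset_insert c F)
        linarith
  have h := hmono (Set.left_mem_Icc.2 zero_le_one) (Set.right_mem_Icc.2 zero_le_one) zero_le_one
  simp only [zero_mul, add_zero, one_mul, add_sub_cancel] at h
  exact h

/-- An injective embedding with smaller intensities: `EE_pimg` with `φ c = some (e c)` turns the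
left side into `EE q'' g` with `q'' (e c) = q' c` and `q'' = 0` off the range, then `EE_mono_q`. -/
theorem EE_embed {q' : ι → ℝ} {q : κ → ℝ} (e : ι ↪ κ) (hq' : ∀ c, 0 ≤ q' c) (hq : ∀ k, 0 ≤ q k)
    (h : ∀ c, q' c ≤ q (e c)) {g : Finset κ → ℝ} (hg : ∀ F G : Finset κ, F ⊆ G → g F ≤ g G) :
    EE q' (fun F => g (F.map e)) ≤ EE q g := by
  rw [A4_embed_eq]
  refine EE_mono_q (fun k => ?_) (fun k => ?_) hg
  · refine Finset.sum_nonneg fun c _ => ?_
    split_ifs
    · exact hq' c
    · exact le_refl _
  · by_cases hk : ∃ c, e c = k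
    · obtain ⟨c, rfl⟩ := hk
      rw [Finset.sum_eq_single c]
      · rw [if_pos rfl]
        exact h c
      · intro c' _ hc'
        rw [if_neg]
        intro h
        exact hc' (e.injective h)
      · intro h; exact absurd (Finset.mem_univ _) h
    · rw [Finset.sum_eq_zero]
      · exact hq k
      · intro c _
        rw [if_neg fun h => hk ⟨c, h⟩]

end Pool.Agent.Lib.MP_9cae81_R
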