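import Mathlib

/-!
# Definitions for the corridor theorem on random (2+p)-SAT

* `EE q g`: expectation of `g F`, where `F` contains each `c` independently with probability
  `1 - exp (-q c)`.
* literals, clauses with at most three literals, satisfiability;
* the scaled quantities `ZZ`, `ZL`, `ZX`, `ZY`, `AA`, `R0`, `RR`, `ZB`;
* the abstract analytic input `CorData`, double integrals `I2`, test functions `Test`.
-/

open Finset Filter MeasureTheory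
open scoped BigOperators Topology

namespace Pool.Agent.Lib.MP_9cae81_R

section Bernoulli

variable {ι κ : Type} [Fintype ι] [DecidableEq ι] [Fintype κ] [DecidableEq κ]

/-- Weight of the set `F`: each `c` is present with probability `1 - exp (-q c)`. -/
noncomputable def wt (q : ι → ℝ) (F : Finset ι) : ℝ :=
  ∏ c, if c ∈ F then 1 - Real.exp (-(q c)) else Real.exp (-(q c))

/-- Expectation under independent inclusion. -/
noncomputable def EE (q : ι → ℝ) (g : Finset ι → ℝ) : ℝ := ∑ F : Finset ι, wt q F * g F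

theorem EE_add (q : ι → ℝ) (g h : Finset ι → ℝ) :
    EE q (fun F => g F + h F) = EE q g + EE q h := by
  simp [EE, mul_add, Finset.sum_add_distrib]

theorem EE_sub (q : ι → ℝ) (g h : Finset ι → ℝ) :
    EE q (fun F => g F - h F) = EE q g - EE q h := by
  simp [EE, mul_sub, Finset.sum_sub_distrib]

theorem EE_mul_left (q : ι → ℝ) (a : ℝ) (g : Finset ι → ℝ) :
    EE q (fun F => a * g F) = a * EE q g := by
  simp only [EE, Finset.mul_sum]
  exact Finset.sum_congr rfl fun F _ => by ring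

theorem EE_sum {β : Type*} (q : ι → ℝ) (s : Finset β) (g : β → Finset ι → ℝ) :
    EE q (fun F => ∑ b ∈ s, g b F) = ∑ b ∈ s, EE q (g b) := by
  simp only [EE, Finset.mul_sum]
  exact Finset.sum_comm

theorem wt_nonneg {q : ι → ℝ} (hq : ∀ c, 0 ≤ q c) (F : Finset ι) : 0 ≤ wt q F := by
  refine Finset.prod_nonneg fun c _ => ?_
  split_ifs
  · have : Real.exp (-(q c)) ≤ 1 := Real.exp_le_one_iff.2 (by have := hq c; linarith)
    linarith
  · positivity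

theorem EE_mono {q : ι → ℝ} (hq : ∀ c, 0 ≤ q c) {g h : Finset ι → ℝ} (H : ∀ F, g F ≤ h F) :
    EE q g ≤ EE q h :=
  Finset.sum_le_sum fun F _ => mul_le_mul_of_nonneg_left (H F) (wt_nonneg hq F)

theorem EE_nonneg {q : ι → ℝ} (hq : ∀ c, 0 ≤ q c) {g : Finset ι → ℝ} (H : ∀ F, 0 ≤ g F) :
    0 ≤ EE q g :=
  Finset.sum_nonneg fun F _ => mul_nonneg (wt_nonneg hq F) (H F)

/-- Image of a set under a partial map. -/
def pimg (φ : ι → Option κ) (F : Finset ι) : Finset κ :=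
  Finset.univ.filter (fun k => ∃ c ∈ F, φ c = some k)

end Bernoulli

/-- A literal `(v, s)`; it is true under `σ` when `σ v = s`. -/
abbrev Lt (V : Type) : Type := V × Bool

/-- Clauses: a literal, a pair or a triple of literals (repetitions allowed). -/
abbrev Cl (V : Type) : Type := Lt V ⊕ ((Lt V × Lt V) ⊕ (Lt V × Lt V × Lt V))

instance instClDec (V : Type) [DecidableEq V] : DecidableEq (Cl V) := inferInstance
instance instClFin (V : Type) [Fintype V] : Fintype (Cl V) := inferInstance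

variable {V W : Type}

/-- The opposite literal. -/
def ng (l : Lt V) : Lt V := (l.1, !l.2)

theorem ng_ng (l : Lt V) : ng (ng l) = l := by
  simp [ng]

/-- Unit clause. -/
def cu (a : Lt V) : Cl V := Sum.inl a
/-- 2-clause. -/
def cp (a b : Lt V) : Cl V := Sum.inr (Sum.inl (a, b))
/-- 3-clause. -/
def ct (a b c : Lt V) : Cl V := Sum.inr (Sum.inr (a, b, c))

/-- The assignment `σ` satisfies the clause. -/
def clT (σ : V → Bool) : Cl V → Prop
  | Sum.inl a => σ a.1 = a.2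
  | Sum.inr (Sum.inl p) => σ p.1.1 = p.1.2 ∨ σ p.2.1 = p.2.2
  | Sum.inr (Sum.inr t) => σ t.1.1 = t.1.2 ∨ σ t.2.1.1 = t.2.1.2 ∨ σ t.2.2.1 = t.2.2.2

/-- Satisfiability. -/
def SatF (F : Finset (Cl V)) : Prop := ∃ σ : V → Bool, ∀ c ∈ F, clT σ c

open Classical in
/-- Indicator of unsatisfiability. -/
noncomputable def un (F : Finset (Cl V)) : ℝ := if SatF F then 0 else 1

/-- `g` is monotone for semantic implication: it depends only on the set of models and grows when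
the set of models shrinks. -/
def Sem (g : Finset (Cl V) → ℝ) : Prop :=
  ∀ F F' : Finset (Cl V), (∀ σ : V → Bool, (∀ c ∈ F', clT σ c) → ∀ c ∈ F, clT σ c) → g F ≤ g F'

theorem un_sem : Sem (un : Finset (Cl V) → ℝ) := by
  intro F F' h
  unfold un
  split_ifs with h1 h2
  · exact le_refl _
  · exact zero_le_one
  · exact absurd (by obtain ⟨σ, hσ⟩ := ‹SatF F'›; exact ⟨σ, h σ hσ⟩) h1
  · exact le_refl _

theorem un_nonneg (F : Finset (Cl V)) : 0 ≤ un F := by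
  unfold un; split_ifs <;> norm_num

theorem un_le_one (F : Finset (Cl V)) : un F ≤ 1 := by
  unfold un; split_ifs <;> norm_num

theorem un_zero_or_one (F : Finset (Cl V)) : un F = 0 ∨ un F = 1 := by
  unfold un; split_ifs <;> simp

theorem Sem.mono {g : Finset (Cl V) → ℝ} (hg : Sem g) {F F' : Finset (Cl V)} (h : F ⊆ F') :
    g F ≤ g F' :=
  hg F F' fun _ hσ c hc => hσ c (h hc)

variable [DecidableEq V]

/-- `fr F a = 1` if `F` is satisfiable and `F ∪ {a}` is not, and `0` otherwise. -/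
noncomputable def fr (F : Finset (Cl V)) (a : Lt V) : ℝ := un (insert (cu a) F) - un F

/-- Whether the clause has at most two literals. -/
def short : Cl V → Prop
  | Sum.inl _ => True
  | Sum.inr (Sum.inl _) => True
  | Sum.inr (Sum.inr _) => False

instance : DecidablePred (short : Cl V → Prop) := fun c => by
  rcases c with c | c | c
  · exact isTrue trivial
  · exact isTrue trivial
  · exact isFalse id

/-- The clauses of length at most two. -/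
def le2 (F : Finset (Cl V)) : Finset (Cl V) := F.filter short

/-- Intensities: `u` for unit clauses, `v` for 2-clauses and `w` for 3-clauses. -/
def qq (u v w : ℝ) : Cl V → ℝ
  | Sum.inl _ => u
  | Sum.inr (Sum.inl _) => v
  | Sum.inr (Sum.inr _) => w

theorem qq_nonneg {u v w : ℝ} (hu : 0 ≤ u) (hv : 0 ≤ v) (hw : 0 ≤ w) (c : Cl V) :
    0 ≤ qq u v w c := by
  rcases c with c | c | c <;> simpa [qq]

/-! ### Setting a literal true -/

/-- What becomes of a literal when the literal `(i, s)` is set true: `inl true` if it becomes true,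
`inl false` if it becomes false, `inr l'` if it stays a literal of the other variables. -/
def rl (i : V) (s : Bool) (l : Lt V) : Bool ⊕ Lt {j : V // j ≠ i} :=
  if h : l.1 = i then Sum.inl (decide (l.2 = s)) else Sum.inr (⟨l.1, h⟩, l.2)

/-- Disjunction of reduced literals: `none` is the clause that became true, `some none` the empty
(false) clause. -/
def red1 {X : Type} : Bool ⊕ Lt X → Option (Option (Cl X))
  | Sum.inl true => none
  | Sum.inl false => some none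
  | Sum.inr a => some (some (cu a))

/-- Reduction of a 2-clause. -/
def red2 {X : Type} : Bool ⊕ Lt X → Bool ⊕ Lt X → Option (Option (Cl X))
  | Sum.inl true, _ => none
  | Sum.inl false, z => red1 z
  | Sum.inr _, Sum.inl true => none
  | Sum.inr a, Sum.inl false => some (some (cu a))
  | Sum.inr a, Sum.inr b => some (some (cp a b))

/-- Reduction of a 3-clause. -/
def red3 {X : Type} : Bool ⊕ Lt X → Bool ⊕ Lt X → Bool ⊕ Lt X → Option (Option (Cl X))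
  | Sum.inl true, _, _ => none
  | Sum.inl false, z, z' => red2 z z'
  | Sum.inr _, Sum.inl true, _ => none
  | Sum.inr a, Sum.inl false, z => red2 (Sum.inr a) z
  | Sum.inr _, Sum.inr _, Sum.inl true => none
  | Sum.inr a, Sum.inr b, Sum.inl false => some (some (cp a b))
  | Sum.inr a, Sum.inr b, Sum.inr c => some (some (ct a b c))

/-- Reduction of a clause when the literal `(i, s)` is set true. -/
def red (i : V) (s : Bool) : Cl V → Option (Option (Cl {j : V // j ≠ i}))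
  | Sum.inl a => red1 (rl i s a)
  | Sum.inr (Sum.inl p) => red2 (rl i s p.1) (rl i s p.2)
  | Sum.inr (Sum.inr t) => red3 (rl i s t.1) (rl i s t.2.1) (rl i s t.2.2)

/-! ### Chains -/

/-- The implication `a → b` is given by a 2-clause of `F`. -/
def edge (F : Finset (Cl V)) (a b : Lt V) : Prop := cp (ng a) b ∈ F ∨ cp b (ng a) ∈ F

/-- The unit clauses given by a finite sequence of literals. -/
def us {k : ℕ} (y : Fin k → Lt V) : Finset (Cl V) := Finset.univ.image (fun i => cu (y i))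

/-- `y` is a chain of implications. -/
def isPath {k : ℕ} (F : Finset (Cl V)) (y : Fin (k + 1) → Lt V) : Prop :=
  ∀ i : Fin k, edge F (y i.castSucc) (y i.succ)

/-! ### Scaled quantities.  With `n` variables `l = 2 n u` is the mean number of unit clauses,
`n x = 4 n² v` the mean number of 2-clauses and `n y = 8 n³ w` the mean number of 3-clauses. -/

/-- Scaled intensities. -/
noncomputable def qs (n : ℕ) (l x y : ℝ) : Cl (Fin n) → ℝ :=
  qq (l / (2 * n)) (x / (4 * n)) (y / (8 * (n : ℝ) ^ 2))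

/-- Fraction of literals `a` with `F` satisfiable and `F ∪ {a}` unsatisfiable. -/
noncomputable def fN {n : ℕ} (F : Finset (Cl (Fin n))) : ℝ := (∑ a, fr F a) / (2 * n)

/-- The same for the subformula of clauses of length at most two. -/
noncomputable def m2 {n : ℕ} (F : Finset (Cl (Fin n))) : ℝ := (∑ a, fr (le2 F) a) / (2 * n)

/-- Fraction of literals `a` with `F` and `F₂ ∪ {a}` satisfiable, `F ∪ {a}` unsatisfiable. -/
noncomputable def fT {n : ℕ} (F : Finset (Cl (Fin n))) : ℝ := fN F - (1 - un F) * m2 F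

/-- Average over a literal `b` of the indicator that `F ∪ {b}` is unsatisfiable. -/
noncomputable def av {n : ℕ} (F : Finset (Cl (Fin n))) : ℝ := (∑ b, un (insert (cu b) F)) / (2 * n)

/-- Probability of unsatisfiability. -/
noncomputable def ZZ (n : ℕ) (l x y : ℝ) : ℝ := EE (qs n l x y) un
noncomputable def ZL (n : ℕ) (l x y : ℝ) : ℝ := EE (qs n l x y) fN
noncomputable def ZX (n : ℕ) (l x y : ℝ) : ℝ := n * EE (qs n l x y) (fun F => fN F ^ 2)
noncomputable def ZY (n : ℕ) (l x y : ℝ) : ℝ := n * EE (qs n l x y) (fun F => fN F ^ 3)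
noncomputable def TT (n : ℕ) (l x : ℝ) : ℝ := ZZ n l x 0
noncomputable def TL (n : ℕ) (l x : ℝ) : ℝ := ZL n l x 0
noncomputable def TX (n : ℕ) (l x : ℝ) : ℝ := ZX n l x 0
noncomputable def AA (n : ℕ) (l x y : ℝ) : ℝ := EE (qs n l x y) fT
noncomputable def R0 (n : ℕ) (l x y : ℝ) : ℝ := EE (qs n l x y) (fun F => un F * m2 F)
noncomputable def RR (n : ℕ) (l x y : ℝ) : ℝ := EE (qs n l x y) (fun F => m2 F * av F)

/-- Probability of unsatisfiability after adding `j` uniformly random unit clauses. -/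
noncomputable def ZB (n j : ℕ) (l x y : ℝ) : ℝ :=
  (∑ L : Fin j → Lt (Fin n), EE (qs n l x y) (fun F => un (F ∪ us L))) / (2 * n) ^ j

/-- Average over `j` random unit clauses of the expected fraction, its square and its cube. -/
noncomputable def ZBf (e n j : ℕ) (l x y : ℝ) : ℝ :=
  (∑ L : Fin j → Lt (Fin n), EE (qs n l x y) (fun F => fN (F ∪ us L) ^ e)) / (2 * n) ^ j

/-! ### The abstract analytic input -/

/-- The analytic input.  `Zt n l x y` is the probability that the formula is unsatisfiable while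
its clauses of length at most two are satisfiable; `T n l x` is the probability that the clauses of
length at most two are unsatisfiable. -/
structure CorData (xb Y C1 : ℝ) (ε : ℕ → ℝ) where
  Zt : ℕ → ℝ → ℝ → ℝ → ℝ
  Zl : ℕ → ℝ → ℝ → ℝ → ℝ
  Zx : ℕ → ℝ → ℝ → ℝ → ℝ
  Zy : ℕ → ℝ → ℝ → ℝ → ℝ
  A : ℕ → ℝ → ℝ → ℝ → ℝ
  R0 : ℕ → ℝ → ℝ → ℝ → ℝ
  R : ℕ → ℝ → ℝ → ℝ → ℝ
  B : ℕ → ℝ → ℝ → ℝ → ℝ
  T : ℕ → ℝ → ℝ → ℝ
  Tl : ℕ → ℝ → ℝ → ℝ
  Tx : ℕ → ℝ → ℝ → ℝ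
  cZt : ∀ n, Continuous fun p : ℝ × ℝ × ℝ => Zt n p.1 p.2.1 p.2.2
  cZl : ∀ n, Continuous fun p : ℝ × ℝ × ℝ => Zl n p.1 p.2.1 p.2.2
  cZx : ∀ n, Continuous fun p : ℝ × ℝ × ℝ => Zx n p.1 p.2.1 p.2.2
  cZy : ∀ n, Continuous fun p : ℝ × ℝ × ℝ => Zy n p.1 p.2.1 p.2.2
  cA : ∀ n, Continuous fun p : ℝ × ℝ × ℝ => A n p.1 p.2.1 p.2.2
  cR0 : ∀ n, Continuous fun p : ℝ × ℝ × ℝ => R0 n p.1 p.2.1 p.2.2
  cR : ∀ n, Continuous fun p : ℝ × ℝ × ℝ => R n p.1 p.2.1 p.2.2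
  cB : ∀ n, Continuous fun p : ℝ × ℝ × ℝ => B n p.1 p.2.1 p.2.2
  cT : ∀ n, Continuous fun p : ℝ × ℝ => T n p.1 p.2
  cTl : ∀ n, Continuous fun p : ℝ × ℝ => Tl n p.1 p.2
  cTx : ∀ n, Continuous fun p : ℝ × ℝ => Tx n p.1 p.2
  dZl : ∀ (n : ℕ) (l x y : ℝ), 1 ≤ n → HasDerivAt (fun s => Zt n s x y) (Zl n l x y) l
  dZx : ∀ (n : ℕ) (l x y : ℝ), 1 ≤ n → HasDerivAt (fun s => Zt n (l + s) s y)
    (Zl n (l + x) x y + Zx n (l + x) x y) x
  dZy : ∀ (n : ℕ) (l x y : ℝ), 1 ≤ n → HasDerivAt (fun s => Zt n l x s) (Zy n l x y) y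
  dTl : ∀ (n : ℕ) (l x : ℝ), 1 ≤ n → HasDerivAt (fun s => T n s x) (Tl n l x) l
  dTx : ∀ (n : ℕ) (l x : ℝ), 1 ≤ n → HasDerivAt (fun s => T n (l + s) s)
    (Tl n (l + x) x + Tx n (l + x) x) x
  Z0 : ∀ (n : ℕ) (l x : ℝ), 1 ≤ n → Zt n l x 0 = 0
  Znn : ∀ (n : ℕ) (l x y : ℝ), 1 ≤ n → 0 ≤ l → 0 ≤ x → 0 ≤ y → 0 ≤ Zt n l x y
  Zle : ∀ (n : ℕ) (l x y : ℝ), 1 ≤ n → 0 ≤ l → 0 ≤ x → 0 ≤ y → Zt n l x y ≤ 1
  ZlA : ∀ (n : ℕ) (l x y : ℝ), 1 ≤ n → Zl n l x y = A n l x y - R0 n l x y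
  Ann : ∀ (n : ℕ) (l x y : ℝ), 1 ≤ n → 0 ≤ l → 0 ≤ x → 0 ≤ y → 0 ≤ A n l x y
  Ale : ∀ (n : ℕ) (l x y : ℝ), 1 ≤ n → 0 ≤ l → 0 ≤ x → 0 ≤ y → A n l x y ≤ 1
  R0nn : ∀ (n : ℕ) (l x y : ℝ), 1 ≤ n → 0 ≤ l → 0 ≤ x → 0 ≤ y → 0 ≤ R0 n l x y
  R0R : ∀ (n : ℕ) (l x y : ℝ), 1 ≤ n → 0 ≤ l → 0 ≤ x → 0 ≤ y → R0 n l x y ≤ R n l x y
  Rle : ∀ (n : ℕ) (l x y : ℝ), 1 ≤ n → 0 ≤ l → 0 ≤ x → 0 ≤ y → R n l x y ≤ 1
  crude : ∀ (n : ℕ) (l x y : ℝ), 1 ≤ n → 0 ≤ l → 0 ≤ x → x ≤ xb → 0 ≤ y →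
    (n : ℝ) * R n l x y ≤ C1 * (1 + l)
  fine : ∀ (n : ℕ) (l x y : ℝ), 1 ≤ n → 0 ≤ l → 0 ≤ x → x ≤ xb → 0 ≤ y →
    (n : ℝ) * R n l x y ≤ C1 * (1 + l) * (Zt n l x y + B n l x y)
  Bnn : ∀ (n : ℕ) (l x y : ℝ), 1 ≤ n → 0 ≤ l → 0 ≤ x → 0 ≤ y → 0 ≤ B n l x y
  Bint : ∀ (n : ℕ) (l x : ℝ), 1 ≤ n → 0 ≤ l → 0 ≤ x → x ≤ xb →
    ∫ y in (0 : ℝ)..Y, B n l x y ≤ ε n * (1 + l) ^ 2
  Aint : ∀ (n : ℕ) (l x : ℝ), 1 ≤ n → 0 ≤ l → 0 ≤ x → x ≤ xb →
    ∫ y in (0 : ℝ)..Y, A n l x y ≤ ε n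
  Tnn : ∀ (n : ℕ) (l x : ℝ), 1 ≤ n → 0 ≤ l → 0 ≤ x → 0 ≤ T n l x
  Tle : ∀ (n : ℕ) (l x : ℝ), 1 ≤ n → 0 ≤ l → 0 ≤ x → x ≤ xb → T n l x ≤ ε n * (1 + l) ^ 2
  Tlnn : ∀ (n : ℕ) (l x : ℝ), 1 ≤ n → 0 ≤ l → 0 ≤ x → 0 ≤ Tl n l x
  Txnn : ∀ (n : ℕ) (l x : ℝ), 1 ≤ n → 0 ≤ l → 0 ≤ x → 0 ≤ Tx n l x
  cubic : ∀ (n : ℕ) (l x y : ℝ), 1 ≤ n → 0 ≤ l → 0 ≤ x → 0 ≤ y → ∀ a β γ : ℝ,
    (∀ t : ℝ, 0 ≤ t → t ≤ 1 / 2 → 0 ≤ a * t - β * t ^ 2 + γ * t ^ 3) →
    β * (Zx n l x y + Tx n l x) - γ * Zy n l x y ≤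
      n * a * A n l x y + (2 * max β 0 + 3 / 2 * max (-γ) 0) * (n * R n l x y)
  recur : ∀ (n : ℕ) (l x y : ℝ), 2 ≤ n → 0 ≤ l → 0 ≤ x → 0 ≤ y →
    Zt n l x y + Zl n l x y ≤
      Zt (n - 1) ((1 - 1 / (n : ℝ)) * (l + x + 3 * y / (4 * n)))
        ((1 - 1 / (n : ℝ)) * (x + 3 * y / (2 * n))) ((1 - 1 / (n : ℝ)) ^ 2 * y) +
      T (n - 1) ((1 - 1 / (n : ℝ)) * (l + x + 3 * y / (4 * n)))
        ((1 - 1 / (n : ℝ)) * (x + 3 * y / (2 * n))) -
      T (n - 1) ((1 - 1 / (n : ℝ)) * (l + x)) ((1 - 1 / (n : ℝ)) * x) +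
      y / (8 * (n : ℝ) ^ 2)
  mono : ∀ (n : ℕ) (x y x' y' : ℝ), 1 ≤ n → 0 ≤ x → 0 ≤ y → x ≤ x' → y ≤ y' →
    Zt n 0 x y + T n 0 x ≤ Zt n 0 x' y' + T n 0 x'

/-- Double integral over the rectangle `[0,1] × [0,Y]`. -/
noncomputable def I2 (Y : ℝ) (f : ℝ → ℝ → ℝ) : ℝ := ∫ y in (0 : ℝ)..Y, ∫ x in (0 : ℝ)..1, f x y

/-- Continuity on the rectangle `[0,1] × [0,Y]`. -/
def CR (Y : ℝ) (f : ℝ → ℝ → ℝ) : Prop :=
  ContinuousOn (fun p : ℝ × ℝ => f p.1 p.2) (Set.Icc 0 1 ×ˢ Set.Icc 0 Y)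

/-- A test function with its two partial derivatives: `C¹`, nonnegative, vanishing for
`x ∉ (xa, xc)` (when `y ≥ 0`) and for `y ≥ Y`. -/
structure Test (xa xc Y : ℝ) where
  w : ℝ → ℝ → ℝ
  wx : ℝ → ℝ → ℝ
  wy : ℝ → ℝ → ℝ
  cw : Continuous fun p : ℝ × ℝ => w p.1 p.2
  cwx : Continuous fun p : ℝ × ℝ => wx p.1 p.2
  cwy : Continuous fun p : ℝ × ℝ => wy p.1 p.2
  dwx : ∀ x y, HasDerivAt (fun s => w s y) (wx x y) x
  dwy : ∀ x y, HasDerivAt (fun s => w x s) (wy x y) y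
  nn : ∀ x y, 0 ≤ w x y
  left : ∀ x y, 0 ≤ y → x ≤ xa → w x y = 0
  right : ∀ x y, 0 ≤ y → xc ≤ x → w x y = 0
  top : ∀ x y, Y ≤ y → w x y = 0

/-- The exponentially weighted integral over `l > 0`. -/
noncomputable def LL (μ : ℝ) (g : ℝ → ℝ) : ℝ := ∫ l in Set.Ioi (0 : ℝ), Real.exp (-(μ * l)) * g l

end Pool.Agent.Lib.MP_9cae81_R
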