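import Pool.Agent.Lib.MP_9cae81_R.Defs

open Finset Filter MeasureTheory
open scoped BigOperators Topology

namespace Pool.Agent.Lib.MP_9cae81_R

private theorem F6_mvt {f f' : ℝ → ℝ} (hf : ∀ s, HasDerivAt f (f' s) s) {a b c δ : ℝ}
    (hb : ∀ s ∈ Set.uIcc a b, |f' s - c| ≤ δ) : |f b - f a - c * (b - a)| ≤ δ * |b - a| := by
  have hd : ∀ s ∈ Set.uIcc a b, HasDerivWithinAt (fun s => f s - c * s) (f' s - c) (Set.uIcc a b) s := by
    intro s _
    have h0 := (hf s).sub ((hasDerivAt_id s).const_mul c)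
    have h1 : HasDerivAt (fun s => f s - c * s) (f' s - c) s := by
      refine h0.congr_deriv ?_
      ring
    exact h1.hasDerivWithinAt
  have h1 := Convex.norm_image_sub_le_of_norm_hasDerivWithin_le (f := fun s => f s - c * s)
    (f' := fun s => f' s - c) (C := δ) (s := Set.uIcc a b) (x := a) (y := b) hd
    (fun s hs => by rw [Real.norm_eq_abs]; exact hb s hs) (convex_uIcc a b) Set.left_mem_uIcc Set.right_mem_uIcc
  rw [Real.norm_eq_abs, Real.norm_eq_abs] at h1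
  have h2 : f b - f a - c * (b - a) = (f b - c * b) - (f a - c * a) := by ring
  rw [h2]
  exact h1

/-- the algebra of the expansion, `i = 1/(1-h)` -/
private theorem F6_alg {h i x y Y : ℝ} (h0 : 0 < h) (i1 : 1 ≤ i) (i2 : i ≤ 2) (hi : i - 1 = h * i)
    (x0 : 0 ≤ x) (x1 : x ≤ 1) (y0 : 0 ≤ y) (y1 : y ≤ Y) :
    |x * i - 3 / 2 * h * y * i ^ 2 - x| ≤ (2 + 9 * Y) * h ∧
    |y * i ^ 2 - y| ≤ (2 + 9 * Y) * h ∧
    |i ^ 3 * (x * i - 3 / 2 * h * y * i ^ 2 - x) + h * (3 / 2 * y - x)| ≤ 15 * (2 + 9 * Y) * h ^ 2 ∧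
    |i ^ 3 * (y * i ^ 2 - y) - h * (2 * y)| ≤ 15 * (2 + 9 * Y) * h ^ 2 ∧
    |i ^ 3 - 1 - 3 * h| ≤ 22 * h ^ 2 ∧ i ^ 3 ≤ 8 := by
  have hY : 0 ≤ Y := y0.trans y1
  have i0 : 0 ≤ i := by linarith
  have hsq : i ^ 2 ≤ 4 := by nlinarith
  have hcu : i ^ 3 ≤ 8 := by
    have : i ^ 3 = i ^ 2 * i := by ring
    rw [this]
    nlinarith [sq_nonneg i]
  have hcu0 : 0 ≤ i ^ 3 := by positivity
  have hh : 0 ≤ h ^ 2 := sq_nonneg h
  -- small quantities
  have e1 : x * i - 3 / 2 * h * y * i ^ 2 - x = h * (x * i - 3 / 2 * y * i ^ 2) := by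
    have : x * i - x = x * (h * i) := by rw [← hi]; ring
    linear_combination this
  have e2 : y * i ^ 2 - y = h * (y * (i * (i + 1))) := by
    have : i ^ 2 - 1 = h * i * (i + 1) := by
      have h3 : i ^ 2 - 1 = (i - 1) * (i + 1) := by ring
      rw [h3, hi]
    linear_combination y * this
  have b1 : |x * i - 3 / 2 * y * i ^ 2| ≤ 2 + 9 * Y := by
    have h3 : 0 ≤ x * i := mul_nonneg x0 i0
    have h4 : x * i ≤ 2 := by nlinarith
    have h5 : 0 ≤ y * i ^ 2 := by positivity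
    have h6 : y * i ^ 2 ≤ 4 * Y := by
      have := mul_le_mul y1 hsq (sq_nonneg i) hY
      linarith
    rw [abs_le]
    constructor <;> linarith
  have b2 : |y * (i * (i + 1))| ≤ 2 + 9 * Y := by
    have h5 : 0 ≤ i * (i + 1) := by positivity
    have h6 : i * (i + 1) ≤ 6 := by nlinarith
    have h7 := mul_le_mul y1 h6 h5 hY
    rw [abs_of_nonneg (mul_nonneg y0 h5)]
    linarith
  have c1 : |x * i - 3 / 2 * h * y * i ^ 2 - x| ≤ (2 + 9 * Y) * h := by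
    rw [e1, abs_mul, abs_of_pos h0, mul_comm]
    exact mul_le_mul_of_nonneg_right b1 h0.le
  have c2 : |y * i ^ 2 - y| ≤ (2 + 9 * Y) * h := by
    rw [e2, abs_mul, abs_of_pos h0, mul_comm]
    exact mul_le_mul_of_nonneg_right b2 h0.le
  have k3 : i ^ 3 - 1 = h * (i * (i ^ 2 + i + 1)) := by
    have h3 : i ^ 3 - 1 = (i - 1) * (i ^ 2 + i + 1) := by ring
    rw [h3, hi]
    ring
  have b3 : |i ^ 3 - 1| ≤ 14 * h := by
    rw [k3, abs_mul, abs_of_pos h0, mul_comm]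
    refine mul_le_mul_of_nonneg_right ?_ h0.le
    have h5 : 0 ≤ i * (i ^ 2 + i + 1) := by positivity
    rw [abs_of_nonneg h5]
    nlinarith
  have d1 : |x * i - 3 / 2 * h * y * i ^ 2 - x + h * (3 / 2 * y - x)| ≤ (2 + 9 * Y) * h ^ 2 := by
    have h3 : x * i - 3 / 2 * h * y * i ^ 2 - x + h * (3 / 2 * y - x) = h ^ 2 * (x * i - 3 / 2 * y * (i * (i + 1))) := by
      have h4 : i ^ 2 - 1 = h * i * (i + 1) := by
        have h3 : i ^ 2 - 1 = (i - 1) * (i + 1) := by ring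
        rw [h3, hi]
      rw [e1]
      linear_combination h * x * hi - 3 / 2 * h * y * h4
    rw [h3, abs_mul, abs_of_nonneg hh, mul_comm]
    refine mul_le_mul_of_nonneg_right ?_ hh
    have h3 : 0 ≤ x * i := mul_nonneg x0 i0
    have h4 : x * i ≤ 2 := by nlinarith
    have h5 : 0 ≤ i * (i + 1) := by positivity
    have h6 : i * (i + 1) ≤ 6 := by nlinarith
    have h7 := mul_le_mul y1 h6 h5 hY
    have h8 := mul_nonneg y0 h5
    rw [abs_le]
    constructor <;> linarith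
  have d2 : |y * i ^ 2 - y - h * (2 * y)| ≤ (2 + 9 * Y) * h ^ 2 := by
    have h3 : y * i ^ 2 - y - h * (2 * y) = h ^ 2 * (y * (i * (i + 2))) := by
      rw [e2]
      have h4 : i * (i + 1) - 2 = (i - 1) * (i + 2) := by ring
      rw [hi] at h4
      linear_combination h * y * h4
    rw [h3, abs_mul, abs_of_nonneg hh, mul_comm]
    refine mul_le_mul_of_nonneg_right ?_ hh
    have h5 : 0 ≤ i * (i + 2) := by positivity
    have h6 : i * (i + 2) ≤ 8 := by nlinarith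
    have h7 := mul_le_mul y1 h6 h5 hY
    rw [abs_of_nonneg (mul_nonneg y0 h5)]
    linarith
  have hM : 0 ≤ (2 + 9 * Y) * h := by positivity
  refine ⟨c1, c2, ?_, ?_, ?_, hcu⟩
  · have h3 : i ^ 3 * (x * i - 3 / 2 * h * y * i ^ 2 - x) + h * (3 / 2 * y - x) =
        (i ^ 3 - 1) * (x * i - 3 / 2 * h * y * i ^ 2 - x) + (x * i - 3 / 2 * h * y * i ^ 2 - x + h * (3 / 2 * y - x)) := by ring
    rw [h3]
    refine (abs_add_le _ _).trans ?_
    rw [abs_mul]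
    have h4 := mul_le_mul b3 c1 (abs_nonneg _) (by positivity)
    have h5 : 14 * h * ((2 + 9 * Y) * h) = 14 * (2 + 9 * Y) * h ^ 2 := by ring
    rw [h5] at h4
    linarith
  · have h3 : i ^ 3 * (y * i ^ 2 - y) - h * (2 * y) =
        (i ^ 3 - 1) * (y * i ^ 2 - y) + (y * i ^ 2 - y - h * (2 * y)) := by ring
    rw [h3]
    refine (abs_add_le _ _).trans ?_
    rw [abs_mul]
    have h4 := mul_le_mul b3 c2 (abs_nonneg _) (by positivity)
    have h5 : 14 * h * ((2 + 9 * Y) * h) = 14 * (2 + 9 * Y) * h ^ 2 := by ring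
    rw [h5] at h4
    linarith
  · have h3 : i ^ 3 - 1 - 3 * h = h ^ 2 * (i * (i ^ 2 + 2 * i + 3)) := by
      rw [k3]
      have h4 : i * (i ^ 2 + i + 1) - 3 = (i - 1) * (i ^ 2 + 2 * i + 3) := by ring
      rw [hi] at h4
      linear_combination h * h4
    rw [h3, abs_mul, abs_of_nonneg hh, mul_comm]
    refine mul_le_mul_of_nonneg_right ?_ hh
    have h5 : 0 ≤ i * (i ^ 2 + 2 * i + 3) := by positivity
    rw [abs_of_nonneg h5]
    nlinarith

private theorem F6_core {xa xc Y : ℝ} (w : Test xa xc Y) (hY : 0 ≤ Y) {e : ℝ} (he : 0 < e) :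
    ∃ h0 : ℝ, 0 < h0 ∧ ∀ h : ℝ, 0 < h → h < h0 → ∀ x y : ℝ, 0 ≤ x → x ≤ 1 → 0 ≤ y → y ≤ Y →
      |((1 - h)⁻¹) ^ 3 * w.w (x / (1 - h) - 3 / 2 * h * y / (1 - h) ^ 2) (y / (1 - h) ^ 2) - w.w x y +
        h * ((3 / 2 * y - x) * w.wx x y - 2 * y * w.wy x y - 3 * w.w x y)| ≤ e * h := by
  obtain ⟨M, hM⟩ : ∃ M : ℝ, M = 2 + 9 * Y := ⟨_, rfl⟩
  have hM0 : 0 < M := by rw [hM]; linarith
  have hK : IsCompact (Set.Icc (-1 : ℝ) 2 ×ˢ Set.Icc (0 : ℝ) (Y + 1)) := isCompact_Icc.prod isCompact_Icc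
  obtain ⟨W1, hW1⟩ := hK.exists_bound_of_continuousOn w.cw.continuousOn
  obtain ⟨W2, hW2⟩ := hK.exists_bound_of_continuousOn w.cwx.continuousOn
  obtain ⟨W3, hW3⟩ := hK.exists_bound_of_continuousOn w.cwy.continuousOn
  obtain ⟨W, hW⟩ : ∃ W : ℝ, W = |W1| + |W2| + |W3| := ⟨_, rfl⟩
  have a1 := abs_nonneg W1
  have a2 := abs_nonneg W2
  have a3 := abs_nonneg W3
  have hW0 : 0 ≤ W := by rw [hW]; positivity
  obtain ⟨η, hη⟩ : ∃ η : ℝ, η = e / (32 * M) := ⟨_, rfl⟩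
  have hη0 : 0 < η := by rw [hη]; positivity
  obtain ⟨δ1, hδ1, hu1⟩ := Metric.uniformContinuousOn_iff.1 (hK.uniformContinuousOn_of_continuous w.cwx.continuousOn) η hη0
  obtain ⟨δ2, hδ2, hu2⟩ := Metric.uniformContinuousOn_iff.1 (hK.uniformContinuousOn_of_continuous w.cwy.continuousOn) η hη0
  obtain ⟨Q, hQ⟩ : ∃ Q : ℝ, Q = W * (30 * M + 22) + 1 := ⟨_, rfl⟩
  have hQ0 : 0 < Q := by rw [hQ]; positivity
  refine ⟨min (min (1 / 2) (1 / M)) (min (min (δ1 / M) (δ2 / M)) (e / (2 * Q))), ?_, ?_⟩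
  · refine lt_min (lt_min (by norm_num) (by positivity)) (lt_min (lt_min (by positivity) (by positivity)) (by positivity))
  intro h h0 hlt x y x0 x1 y0 y1
  rw [lt_min_iff, lt_min_iff, lt_min_iff, lt_min_iff] at hlt
  obtain ⟨⟨l1, l2⟩, ⟨l3, l4⟩, l5⟩ := hlt
  rw [lt_div_iff₀ hM0] at l2 l3 l4
  rw [lt_div_iff₀ (by positivity)] at l5
  have hθ : 0 < 1 - h := by linarith
  obtain ⟨i, hi⟩ : ∃ i : ℝ, i = (1 - h)⁻¹ := ⟨_, rfl⟩
  have hii : i * (1 - h) = 1 := by rw [hi]; exact inv_mul_cancel₀ hθ.ne'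
  have i0 : 0 < i := by rw [hi]; exact inv_pos.2 hθ
  have i1 : 1 ≤ i := by nlinarith
  have i2 : i ≤ 2 := by nlinarith
  have hih : i - 1 = h * i := by linear_combination hii
  obtain ⟨b1, b2, b3, b4, b5, b6⟩ := F6_alg h0 i1 i2 hih x0 x1 y0 y1
  rw [← hM] at b1 b2 b3 b4
  obtain ⟨x', hx'⟩ : ∃ x' : ℝ, x' = x * i - 3 / 2 * h * y * i ^ 2 := ⟨_, rfl⟩
  obtain ⟨y', hy'⟩ : ∃ y' : ℝ, y' = y * i ^ 2 := ⟨_, rfl⟩
  have ex : x / (1 - h) - 3 / 2 * h * y / (1 - h) ^ 2 = x' := by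
    rw [hx', hi, div_eq_mul_inv, div_eq_mul_inv, inv_pow]
  have ey : y / (1 - h) ^ 2 = y' := by
    rw [hy', hi, div_eq_mul_inv, inv_pow]
  rw [ex, ey, ← hi]
  rw [← hx'] at b1 b3
  rw [← hy'] at b2 b4
  have hMh : M * h < 1 := by linarith
  have hMh0 : 0 < M * h := by positivity
  have dx1 : |x' - x| < 1 := lt_of_le_of_lt b1 hMh
  have dy1 : |y' - y| < 1 := lt_of_le_of_lt b2 hMh
  have yy : y ≤ y' := by
    rw [hy']
    have : 1 ≤ i ^ 2 := by nlinarith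
    nlinarith
  have dx2 := abs_lt.1 dx1
  have dy2 := abs_lt.1 dy1
  have hyK : y ∈ Set.Icc (0 : ℝ) (Y + 1) := ⟨y0, by linarith⟩
  have hy'K : y' ∈ Set.Icc (0 : ℝ) (Y + 1) := ⟨by linarith, by linarith⟩
  have hxK : x ∈ Set.Icc (-1 : ℝ) 2 := ⟨by linarith, by linarith⟩
  have m0 : (x, y) ∈ Set.Icc (-1 : ℝ) 2 ×ˢ Set.Icc (0 : ℝ) (Y + 1) := ⟨hxK, hyK⟩
  have p1 : |w.w x' y' - w.w x y' - w.wx x y * (x' - x)| ≤ η * |x' - x| := by
    refine F6_mvt (f := fun s => w.w s y') (f' := fun s => w.wx s y') (fun s => w.dwx s y') ?_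
    intro s hs
    have hs1 : |s - x| ≤ |x' - x| := by
      rcases Set.mem_uIcc.1 hs with h3 | h3
      · rw [abs_of_nonneg (by linarith), abs_of_nonneg (by linarith)]
        linarith
      · rw [abs_of_nonpos (by linarith), abs_of_nonpos (by linarith)]
        linarith
    have hs2 := abs_lt.1 (lt_of_le_of_lt hs1 dx1)
    have ms : (s, y') ∈ Set.Icc (-1 : ℝ) 2 ×ˢ Set.Icc (0 : ℝ) (Y + 1) := ⟨⟨by linarith, by linarith⟩, hy'K⟩
    have h4 := hu1 (s, y') ms (x, y) m0 (by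
      rw [Prod.dist_eq, Real.dist_eq, Real.dist_eq]
      refine max_lt ?_ ?_
      · exact lt_of_le_of_lt (hs1.trans b1) (by linarith)
      · exact lt_of_le_of_lt b2 (by linarith))
    rw [Real.dist_eq] at h4
    exact h4.le
  have p2 : |w.w x y' - w.w x y - w.wy x y * (y' - y)| ≤ η * |y' - y| := by
    refine F6_mvt (f := fun s => w.w x s) (f' := fun s => w.wy x s) (fun s => w.dwy x s) ?_
    intro s hs
    have hs1 : |s - y| ≤ |y' - y| := by
      rcases Set.mem_uIcc.1 hs with h3 | h3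
      · rw [abs_of_nonneg (by linarith), abs_of_nonneg (by linarith)]
        linarith
      · rw [abs_of_nonpos (by linarith), abs_of_nonpos (by linarith)]
        linarith
    have hs3 : y ≤ s := by
      rcases Set.mem_uIcc.1 hs with h3 | h3
      · exact h3.1
      · linarith
    have hs2 := abs_lt.1 (lt_of_le_of_lt hs1 dy1)
    have ms : (x, s) ∈ Set.Icc (-1 : ℝ) 2 ×ˢ Set.Icc (0 : ℝ) (Y + 1) := ⟨hxK, ⟨by linarith, by linarith⟩⟩
    have h4 := hu2 (x, s) ms (x, y) m0 (by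
      rw [Prod.dist_eq, Real.dist_eq, Real.dist_eq]
      refine max_lt ?_ ?_
      · show |x - x| < δ2
        rw [sub_self, abs_zero]
        exact hδ2
      · exact lt_of_le_of_lt (hs1.trans b2) (by linarith))
    rw [Real.dist_eq] at h4
    exact h4.le
  have w1 : |w.w x y| ≤ W := by
    have h3 : |w.w x y| ≤ W1 := hW1 (x, y) m0
    rw [hW]
    linarith [le_abs_self W1]
  have w2 : |w.wx x y| ≤ W := by
    have h3 : |w.wx x y| ≤ W2 := hW2 (x, y) m0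
    rw [hW]
    linarith [le_abs_self W2]
  have w3 : |w.wy x y| ≤ W := by
    have h3 : |w.wy x y| ≤ W3 := hW3 (x, y) m0
    rw [hW]
    linarith [le_abs_self W3]
  have key : i ^ 3 * w.w x' y' - w.w x y + h * ((3 / 2 * y - x) * w.wx x y - 2 * y * w.wy x y - 3 * w.w x y) =
      i ^ 3 * (w.w x' y' - w.w x y' - w.wx x y * (x' - x)) + i ^ 3 * (w.w x y' - w.w x y - w.wy x y * (y' - y)) +
      w.wx x y * (i ^ 3 * (x' - x) + h * (3 / 2 * y - x)) + w.wy x y * (i ^ 3 * (y' - y) - h * (2 * y)) +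
      (i ^ 3 - 1 - 3 * h) * w.w x y := by ring
  rw [key]
  have i30 : 0 ≤ i ^ 3 := by positivity
  have q1 : |i ^ 3 * (w.w x' y' - w.w x y' - w.wx x y * (x' - x))| ≤ 8 * (η * (M * h)) := by
    rw [abs_mul, abs_of_nonneg i30]
    exact mul_le_mul b6 (p1.trans (mul_le_mul_of_nonneg_left b1 hη0.le)) (abs_nonneg _) (by norm_num)
  have q2 : |i ^ 3 * (w.w x y' - w.w x y - w.wy x y * (y' - y))| ≤ 8 * (η * (M * h)) := by
    rw [abs_mul, abs_of_nonneg i30]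
    exact mul_le_mul b6 (p2.trans (mul_le_mul_of_nonneg_left b2 hη0.le)) (abs_nonneg _) (by norm_num)
  have q3 : |w.wx x y * (i ^ 3 * (x' - x) + h * (3 / 2 * y - x))| ≤ W * (15 * M * h ^ 2) := by
    rw [abs_mul]
    exact mul_le_mul w2 b3 (abs_nonneg _) hW0
  have q4 : |w.wy x y * (i ^ 3 * (y' - y) - h * (2 * y))| ≤ W * (15 * M * h ^ 2) := by
    rw [abs_mul]
    exact mul_le_mul w3 b4 (abs_nonneg _) hW0
  have q5 : |(i ^ 3 - 1 - 3 * h) * w.w x y| ≤ (22 * h ^ 2) * W := by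
    rw [abs_mul]
    exact mul_le_mul b5 w1 (abs_nonneg _) (by positivity)
  have r1 := abs_add_le (i ^ 3 * (w.w x' y' - w.w x y' - w.wx x y * (x' - x)) + i ^ 3 * (w.w x y' - w.w x y - w.wy x y * (y' - y)) +
      w.wx x y * (i ^ 3 * (x' - x) + h * (3 / 2 * y - x)) + w.wy x y * (i ^ 3 * (y' - y) - h * (2 * y))) ((i ^ 3 - 1 - 3 * h) * w.w x y)
  have r2 := abs_add_le (i ^ 3 * (w.w x' y' - w.w x y' - w.wx x y * (x' - x)) + i ^ 3 * (w.w x y' - w.w x y - w.wy x y * (y' - y)) +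
      w.wx x y * (i ^ 3 * (x' - x) + h * (3 / 2 * y - x))) (w.wy x y * (i ^ 3 * (y' - y) - h * (2 * y)))
  have r3 := abs_add_le (i ^ 3 * (w.w x' y' - w.w x y' - w.wx x y * (x' - x)) + i ^ 3 * (w.w x y' - w.w x y - w.wy x y * (y' - y)))
      (w.wx x y * (i ^ 3 * (x' - x) + h * (3 / 2 * y - x)))
  have r4 := abs_add_le (i ^ 3 * (w.w x' y' - w.w x y' - w.wx x y * (x' - x))) (i ^ 3 * (w.w x y' - w.w x y - w.wy x y * (y' - y)))
  have s1 : 8 * (η * (M * h)) + 8 * (η * (M * h)) = e * h / 2 := by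
    rw [hη]
    field_simp
    norm_num
  have s2 : W * (15 * M * h ^ 2) + W * (15 * M * h ^ 2) + (22 * h ^ 2) * W ≤ e * h / 2 := by
    have h3 : W * (15 * M * h ^ 2) + W * (15 * M * h ^ 2) + (22 * h ^ 2) * W = (W * (30 * M + 22) * h) * h := by ring
    rw [h3]
    have h4 : W * (30 * M + 22) * h ≤ Q * h := by
      refine mul_le_mul_of_nonneg_right ?_ h0.le
      rw [hQ]
      linarith
    have h5 : Q * h ≤ e / 2 := by linarith
    have h6 := mul_le_mul_of_nonneg_right (h4.trans h5) h0.le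
    linarith
  linarith

/-- First order Taylor expansion of the transformed test function, `θ = 1 - 1/n`.

Proof.  `(dx, dy) := (x/θ - (3/2)(1-θ) y/θ² - x, y/θ² - y)`; with `θ = 1 - 1/n`,
`dx = -((3/2) y - x)/n + O(1/n²)`, `dy = 2y/n + O(1/n²)`, `θ⁻³ = 1 + 3/n + O(1/n²)`, uniformly on the
rectangle.  By the mean value theorem (first in `x`, then in `y`)
`w(x+dx, y+dy) - w(x,y) = wx(ξ, y+dy) dx + wy(x, η) dy` with `ξ, η` between the end points, and `wx`,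
`wy` are uniformly continuous on the compact set `[-1,2] × [0, 2Y+1]`; so the difference is
`wx(x,y) dx + wy(x,y) dy + o(|dx| + |dy|)`.  Multiply by `θ⁻³`. -/
theorem taylor {xa xc Y : ℝ} (w : Test xa xc Y) (hY : 0 ≤ Y) {e : ℝ} (he : 0 < e) :
    ∀ᶠ n : ℕ in atTop, ∀ x y : ℝ, 0 ≤ x → x ≤ 1 → 0 ≤ y → y ≤ Y →
      |((1 - 1 / (n : ℝ))⁻¹) ^ 3 *
          w.w (x / (1 - 1 / (n : ℝ)) - 3 / 2 * (1 / (n : ℝ)) * y / (1 - 1 / (n : ℝ)) ^ 2)
            (y / (1 - 1 / (n : ℝ)) ^ 2) - w.w x y +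
        1 / (n : ℝ) * ((3 / 2 * y - x) * w.wx x y - 2 * y * w.wy x y - 3 * w.w x y)| ≤
      e / n := by
  obtain ⟨h0, hh0, H⟩ := F6_core w hY he
  have h1 : ∀ᶠ n : ℕ in atTop, 1 / (n : ℝ) < h0 :=
    (tendsto_one_div_atTop_nhds_zero_nat (𝕜 := ℝ)).eventually (gt_mem_nhds hh0)
  filter_upwards [h1, eventually_gt_atTop 0] with n hn1 hn2 x y x0 x1 y0 y1
  have hn : (0 : ℝ) < n := by exact_mod_cast hn2
  have h2 := H (1 / (n : ℝ)) (by positivity) hn1 x y x0 x1 y0 y1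
  have h3 : e * (1 / (n : ℝ)) = e / n := by ring
  rw [h3] at h2
  exact h2

end Pool.Agent.Lib.MP_9cae81_R
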