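import Pool.Agent.Lib.MP_9cae81_R.Defs
import Pool.Agent.Lib.MP_9cae81_R.Mg.G003
import Pool.Agent.Lib.MP_9cae81_R.Mg.G004
import Pool.Agent.Lib.MP_9cae81_R.F6

open Finset Filter MeasureTheory
open scoped BigOperators Topology

namespace Pool.Agent.Lib.MP_9cae81_R

/-- **Shift inequality.**  Proof.  `change_var` with `θ = 1 - 1/n` (so `1 - θ = 1/n`,
`(3/2)(1-θ) y = 3 y/(2 n)`; for `n` large `θ (xc + (3/2)(1-θ) Y) ≤ 1` as `xc < 1`), then `taylor` and
`0 ≤ G ≤ 1` on the rectangle: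
`I2 (w G∘X) ≤ I2 (w G) - (1/n) I2 (((3/2 y - x) wx - 2 y wy - 3 w) G) + e Y / n`.  By `ibp2` with
`P = w (3/2 y - x)`, `Q = -2 y w` (`Px = (3/2 y - x) wx - w`, `Qy = -2 y wy - 2 w`,
`Q x 0 = 0`, boundary values by `left, right, top`):
`- I2 (((3/2 y - x) wx - 2 y wy - 3 w) G) = I2 (w ((3/2 y - x) Gx - 2 y Gy))`.  Apply with
`e/(Y+1)` in place of `e`. -/
theorem shift_le {xa xc Y : ℝ} (w : Test xa xc Y) (hY : 0 ≤ Y) (hxa : 0 < xa) (hxc : xc < 1)
    {e : ℝ} (he : 0 < e) :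
    ∀ᶠ n : ℕ in atTop, ∀ G Gx Gy : ℝ → ℝ → ℝ, (Continuous fun p : ℝ × ℝ => G p.1 p.2) →
      (Continuous fun p : ℝ × ℝ => Gx p.1 p.2) → (Continuous fun p : ℝ × ℝ => Gy p.1 p.2) →
      (∀ x y, HasDerivAt (fun s => G s y) (Gx x y) x) →
      (∀ x y, HasDerivAt (fun s => G x s) (Gy x y) y) →
      (∀ x y, 0 ≤ x → x ≤ 1 → 0 ≤ y → y ≤ Y → 0 ≤ G x y ∧ G x y ≤ 1) →
      I2 Y (fun x y => w.w x y * G ((1 - 1 / (n : ℝ)) * (x + 3 * y / (2 * n)))
        ((1 - 1 / (n : ℝ)) ^ 2 * y)) ≤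
      I2 Y (fun x y => w.w x y * G x y) +
        1 / (n : ℝ) * I2 Y (fun x y => w.w x y * ((3 / 2 * y - x) * Gx x y - 2 * y * Gy x y)) +
        e / n := by
  obtain ⟨e', he', heY⟩ : ∃ e' : ℝ, 0 < e' ∧ e' * Y ≤ e := by
    refine ⟨e / (Y + 1), by positivity, ?_⟩
    have h1 : e / (Y + 1) * (Y + 1) = e := by field_simp
    have h2 : 0 < e / (Y + 1) := by positivity
    nlinarith
  have hlim : Tendsto (fun n : ℕ => xc + 3 / 2 * (1 / (n : ℝ)) * Y) atTop (𝓝 (xc + 3 / 2 * 0 * Y)) := by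
    have h1 : Tendsto (fun n : ℕ => 1 / (n : ℝ)) atTop (𝓝 0) := tendsto_one_div_atTop_nhds_zero_nat
    exact ((h1.const_mul (3 / 2)).mul_const Y).const_add xc
  have hev : ∀ᶠ n : ℕ in atTop, xc + 3 / 2 * (1 / (n : ℝ)) * Y < 1 := by
    refine hlim.eventually_lt_const ?_
    simpa using hxc
  filter_upwards [taylor w hY he', hev, eventually_gt_atTop 1] with n ht hn hn1
  intro G Gx Gy cG cGx cGy dGx dGy hG
  have hn1' : (1 : ℝ) < n := by exact_mod_cast hn1
  have hn0 : (0 : ℝ) < n := by linarith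
  have hinv : 1 / (n : ℝ) < 1 := by rw [div_lt_one hn0]; exact hn1'
  have hinv0 : 0 < 1 / (n : ℝ) := by positivity
  obtain ⟨θ, hθ⟩ : ∃ θ : ℝ, θ = 1 - 1 / (n : ℝ) := ⟨_, rfl⟩
  have hθn : 1 - θ = 1 / (n : ℝ) := by rw [hθ]; ring
  have hθ0 : 0 < θ := by rw [hθ]; linarith
  have hθ1 : θ ≤ 1 := by rw [hθ]; linarith
  have hcond : θ * (xc + 3 / 2 * (1 - θ) * Y) ≤ 1 := by
    rw [hθn]
    rcases le_or_gt 0 (xc + 3 / 2 * (1 / (n : ℝ)) * Y) with h | h
    · nlinarith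
    · nlinarith
  rw [← hθ]
  have e1 : I2 Y (fun x y => w.w x y * G (θ * (x + 3 * y / (2 * n))) (θ ^ 2 * y)) =
      I2 Y (fun x y => w.w x y * G (θ * (x + 3 / 2 * (1 - θ) * y)) (θ ^ 2 * y)) := by
    refine I2_congr hY fun x y _ _ _ _ => ?_
    have : 3 * y / (2 * n) = 3 / 2 * (1 - θ) * y := by
      rw [hθn]; field_simp
    rw [this]
  have e2 := change_var w hθ0 hθ1 hY hxa.le hxc.le hcond cG
  have c1 : CR Y (fun x y => (θ⁻¹) ^ 3 *
        w.w (x / θ - 3 / 2 * (1 - θ) * y / θ ^ 2) (y / θ ^ 2) * G x y) := by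
    refine Continuous.continuousOn ?_
    have h1 : Continuous fun p : ℝ × ℝ => w.w (p.1 / θ - 3 / 2 * (1 - θ) * p.2 / θ ^ 2) (p.2 / θ ^ 2) :=
      w.cw.comp (f := fun p : ℝ × ℝ => (p.1 / θ - 3 / 2 * (1 - θ) * p.2 / θ ^ 2, p.2 / θ ^ 2))
        (by fun_prop)
    exact (continuous_const.mul h1).mul cG
  have cw := w.cw
  have cwx := w.cwx
  have cwy := w.cwy
  have cA : CR Y (fun x y => w.w x y * G x y) := (cw.mul cG).continuousOn
  have cS' : Continuous fun p : ℝ × ℝ => ((3 / 2 * p.2 - p.1) * w.wx p.1 p.2 - 2 * p.2 * w.wy p.1 p.2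
      - 3 * w.w p.1 p.2) * G p.1 p.2 := by
    refine Continuous.mul ?_ cG
    refine Continuous.sub (Continuous.sub ?_ ?_) (continuous_const.mul cw)
    · exact Continuous.mul (by fun_prop) cwx
    · exact Continuous.mul (by fun_prop) cwy
  have cS : CR Y (fun x y => ((3 / 2 * y - x) * w.wx x y - 2 * y * w.wy x y - 3 * w.w x y) * G x y) :=
    cS'.continuousOn
  have cS2 : CR Y (fun x y => -(1 / (n : ℝ)) *
      (((3 / 2 * y - x) * w.wx x y - 2 * y * w.wy x y - 3 * w.w x y) * G x y)) :=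
    (continuous_const.mul cS').continuousOn
  have cC : CR Y (fun _ _ => e' / n) := continuous_const.continuousOn
  have cAS : CR Y (fun x y => w.w x y * G x y + -(1 / (n : ℝ)) *
      (((3 / 2 * y - x) * w.wx x y - 2 * y * w.wy x y - 3 * w.w x y) * G x y)) :=
    ((cw.mul cG).add (continuous_const.mul cS')).continuousOn
  have cASC : CR Y (fun x y => (w.w x y * G x y + -(1 / (n : ℝ)) *
      (((3 / 2 * y - x) * w.wx x y - 2 * y * w.wy x y - 3 * w.w x y) * G x y)) + e' / n) :=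
    (((cw.mul cG).add (continuous_const.mul cS')).add continuous_const).continuousOn
  have hle : I2 Y (fun x y => (θ⁻¹) ^ 3 *
        w.w (x / θ - 3 / 2 * (1 - θ) * y / θ ^ 2) (y / θ ^ 2) * G x y) ≤
      I2 Y (fun x y => (w.w x y * G x y + -(1 / (n : ℝ)) *
      (((3 / 2 * y - x) * w.wx x y - 2 * y * w.wy x y - 3 * w.w x y) * G x y)) + e' / n) := by
    refine I2_mono hY c1 cASC fun x y hx0 hx1 hy0 hy1 => ?_
    have h1 := ht x y hx0 hx1 hy0 hy1
    rw [← hθ, ← hθn] at h1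
    obtain ⟨hG0, hG1⟩ := hG x y hx0 hx1 hy0 hy1
    have h2 := (abs_le.1 h1).2
    have h3 : 0 ≤ e' / (n : ℝ) := by positivity
    rw [← hθn]
    have h4 := mul_le_mul_of_nonneg_right h2 hG0
    have h5 : e' / (n : ℝ) * G x y ≤ e' / n * 1 := mul_le_mul_of_nonneg_left hG1 h3
    nlinarith [h4, h5]
  have e3 : I2 Y (fun x y => (w.w x y * G x y + -(1 / (n : ℝ)) *
      (((3 / 2 * y - x) * w.wx x y - 2 * y * w.wy x y - 3 * w.w x y) * G x y)) + e' / n) =
      I2 Y (fun x y => w.w x y * G x y) + -(1 / (n : ℝ)) *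
        I2 Y (fun x y => ((3 / 2 * y - x) * w.wx x y - 2 * y * w.wy x y - 3 * w.w x y) * G x y) +
        e' / n * Y := by
    rw [I2_add hY cAS cC, I2_add hY cA cS2, I2_const_mul]
    congr 1
    simp only [I2, intervalIntegral.integral_const, smul_eq_mul]
    ring
  have e4 := ibp2 (Y := Y) hY (P := fun x y => w.w x y * (3 / 2 * y - x))
    (Q := fun x y => -2 * y * w.w x y) (G := G)
    (Px := fun x y => (3 / 2 * y - x) * w.wx x y - w.w x y)
    (Qy := fun x y => -2 * y * w.wy x y - 2 * w.w x y) (Gx := Gx) (Gy := Gy)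
    (Continuous.mul cw (by fun_prop)) (Continuous.mul (by fun_prop) cw) cG
    (Continuous.sub (Continuous.mul (by fun_prop) cwx) cw)
    (Continuous.sub (Continuous.mul (by fun_prop) cwy) (continuous_const.mul cw)) cGx cGy
    (fun x y => by
      have h := (w.dwx x y).mul (((hasDerivAt_const x (3 / 2 * y)).sub (hasDerivAt_id x)))
      refine h.congr_deriv ?_
      simp
      ring)
    (fun x y => by
      have h := (((hasDerivAt_id y).const_mul (-2)).mul (w.dwy x y))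
      refine h.congr_deriv ?_
      simp
      ring)
    dGx dGy
    (fun y hy0 _ => by rw [w.left 0 y hy0 hxa.le, zero_mul])
    (fun y hy0 _ => by rw [w.right 1 y hy0 hxc.le, zero_mul])
    (fun x _ _ => by rw [w.top x Y le_rfl, mul_zero])
    (fun x _ _ => by simp)
  have e5 : I2 Y (fun x y => w.w x y * ((3 / 2 * y - x) * Gx x y - 2 * y * Gy x y)) =
      I2 Y (fun x y => w.w x y * (3 / 2 * y - x) * Gx x y + -2 * y * w.w x y * Gy x y) := by
    refine I2_congr hY fun x y _ _ _ _ => ?_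
    ring
  have e6 : I2 Y (fun x y => ((3 / 2 * y - x) * w.wx x y - 2 * y * w.wy x y - 3 * w.w x y) * G x y) =
      I2 Y (fun x y => (((3 / 2 * y - x) * w.wx x y - w.w x y) + (-2 * y * w.wy x y - 2 * w.w x y)) *
        G x y) := by
    refine I2_congr hY fun x y _ _ _ _ => ?_
    ring
  have e7 : e' / n * Y ≤ e / n := by
    rw [div_mul_eq_mul_div]
    exact div_le_div_of_nonneg_right heY hn0.le
  rw [e1, e2]
  refine hle.trans ?_
  rw [e3, e5, e4, e6]
  linarith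

end Pool.Agent.Lib.MP_9cae81_R
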