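import Pool.Agent.Lib.MP_9cae81_R.Defs

open Finset Filter MeasureTheory
open scoped BigOperators Topology

namespace Pool.Agent.Lib.MP_9cae81_R

/-- Comparison of the values of a function whose derivative is at least `-M`. -/
theorem F9_comp {f f' : ℝ → ℝ} (hf : ∀ s, HasDerivAt f (f' s) s) {a b M : ℝ} (hab : a ≤ b)
    (h : ∀ s, a ≤ s → s ≤ b → -M ≤ f' s) : f a ≤ f b + M * (b - a) := by
  have hd : ∀ s, HasDerivAt (fun s => f s + M * s) (f' s + M) s := by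
    intro s
    have h1 := (hasDerivAt_id s).const_mul M
    have h2 := (hf s).add h1
    rw [mul_one] at h2
    exact h2
  have hm : MonotoneOn (fun s => f s + M * s) (Set.Icc a b) := by
    refine monotoneOn_of_deriv_nonneg (convex_Icc a b) ?_ ?_ ?_
    · exact fun s _ => (hd s).continuousAt.continuousWithinAt
    · exact fun s _ => (hd s).differentiableAt.differentiableWithinAt
    · intro s hs
      rw [interior_Icc] at hs
      rw [(hd s).deriv]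
      have := h s hs.1.le hs.2.le
      linarith
  have h3 := hm (Set.left_mem_Icc.2 hab) (Set.right_mem_Icc.2 hab) hab
  simp only at h3
  linarith

/-- Pointwise form of the recursion.  Proof.  `n` so large that `xc + 3Y/(2n) ≤ xb`, `n ≥ 2`,
`θ = 1 - 1/n`, `x* = θ (x + 3y/(2n)) ∈ [0, xb]`, `y* = θ² y ∈ [0, Y]`,
`λ* = θ (l + x + 3y/(4n))`, `λ* ≤ θ l + x* ≤ l + x*`.  `recur` gives
`Zt n + Zl n ≤ Zt (n-1) λ* x* y* + T (n-1) λ* x* - T (n-1) (θ(l+x)) (θ x) + Y/(8n²)`.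
`T (n-1) λ* x* ≤ T (n-1) (θ l + x*) x*` as `T` is nondecreasing in `l` (`dTl`, `Tlnn`).
`Zt (n-1) λ* x* y* - Zt (n-1) (l+x*) x* y* = -∫_{λ*}^{l+x*} Zl ≤ ∫ R0 ≤ ∫ R
≤ (l + x* - λ*) * C1 (1 + l + 1)/(n-1)` (`ZlA`, `Ann`, `R0R`, `crude`), and
`l + x* - λ* ≤ (l + Y)/n`. -/
theorem rec_point {xb Y C1 : ℝ} {ε : ℕ → ℝ} (D : CorData xb Y C1 ε) {xc : ℝ} (hxc : xc < xb)
    (hxb : xb < 1) (hY : 0 < Y) (hC1 : 0 ≤ C1) :
    ∃ C : ℝ, 0 ≤ C ∧ ∀ᶠ n : ℕ in atTop, ∀ l x y : ℝ, 0 ≤ l → 0 ≤ x → x ≤ xc → 0 ≤ y → y ≤ Y →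
      D.Zt n l x y + D.Zl n l x y ≤
        D.Zt (n - 1) (l + (1 - 1 / (n : ℝ)) * (x + 3 * y / (2 * n)))
          ((1 - 1 / (n : ℝ)) * (x + 3 * y / (2 * n))) ((1 - 1 / (n : ℝ)) ^ 2 * y) +
        (D.T (n - 1) ((1 - 1 / (n : ℝ)) * l + (1 - 1 / (n : ℝ)) * (x + 3 * y / (2 * n)))
            ((1 - 1 / (n : ℝ)) * (x + 3 * y / (2 * n))) -
          D.T (n - 1) ((1 - 1 / (n : ℝ)) * l + (1 - 1 / (n : ℝ)) * x)
            ((1 - 1 / (n : ℝ)) * x)) +
        C * (1 + l) ^ 2 / (n : ℝ) ^ 2 := by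
  refine ⟨4 * C1 * (1 + Y) + Y, by positivity, ?_⟩
  have hlim : Tendsto (fun n : ℕ => xc + 3 * Y / (2 * (n : ℝ))) atTop (𝓝 (xc + 0)) := by
    refine Tendsto.add tendsto_const_nhds ?_
    have h1 : Tendsto (fun n : ℕ => (n : ℝ)) atTop atTop := tendsto_natCast_atTop_atTop
    exact (tendsto_const_nhds (x := 3 * Y)).div_atTop (h1.const_mul_atTop (by norm_num))
  rw [add_zero] at hlim
  have hev : ∀ᶠ n : ℕ in atTop, xc + 3 * Y / (2 * (n : ℝ)) < xb := hlim.eventually (gt_mem_nhds hxc)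
  filter_upwards [hev, eventually_ge_atTop 2] with n hn1 hn2
  intro l x y hl hx hxx hy hyY
  have hnR : (2 : ℝ) ≤ (n : ℝ) := by exact_mod_cast hn2
  have hn0 : (0 : ℝ) < (n : ℝ) := by linarith
  have hm1 : 1 ≤ n - 1 := by omega
  have hcast : ((n - 1 : ℕ) : ℝ) = (n : ℝ) - 1 := by
    rw [Nat.cast_sub (by omega)]
    simp
  have hθ0 : 0 ≤ 1 - 1 / (n : ℝ) := by
    have : 1 / (n : ℝ) ≤ 1 := by
      rw [div_le_one hn0]
      linarith
    linarith
  have hθ1 : 1 - 1 / (n : ℝ) ≤ 1 := by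
    have : 0 ≤ 1 / (n : ℝ) := by positivity
    linarith
  set θ : ℝ := 1 - 1 / (n : ℝ) with hθ
  have hr0 : 0 ≤ 3 * y / (4 * (n : ℝ)) := by positivity
  have hr2 : 3 * y / (2 * (n : ℝ)) = 2 * (3 * y / (4 * (n : ℝ))) := by
    field_simp
    ring
  have hrY : 3 * y / (2 * (n : ℝ)) ≤ 3 * Y / (2 * (n : ℝ)) := by
    apply div_le_div_of_nonneg_right _ (by positivity)
    linarith
  set r : ℝ := 3 * y / (4 * (n : ℝ)) with hr
  have hxs0 : 0 ≤ θ * (x + 3 * y / (2 * (n : ℝ))) := by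
    rw [hr2]
    positivity
  have hxsb : θ * (x + 3 * y / (2 * (n : ℝ))) ≤ xb := by
    have h1 : θ * (x + 3 * y / (2 * (n : ℝ))) ≤ 1 * (x + 3 * y / (2 * (n : ℝ))) :=
      mul_le_mul_of_nonneg_right hθ1 (by rw [hr2]; positivity)
    linarith
  have hrec := D.recur n l x y hn2 hl hx hy
  rw [← hθ, ← hr] at hrec
  set xs : ℝ := θ * (x + 3 * y / (2 * (n : ℝ))) with hxs
  have hxs' : xs = θ * x + 2 * (θ * r) := by
    rw [hxs, hr2]
    ring
  have hθr : 0 ≤ θ * r := mul_nonneg hθ0 hr0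
  have hys : 0 ≤ θ ^ 2 * y := by positivity
  have hls0 : 0 ≤ θ * (l + x + r) := by positivity
  have hls : θ * (l + x + r) = θ * l + θ * x + θ * r := by ring
  have hθl : θ * l ≤ l := by
    have := mul_le_mul_of_nonneg_right hθ1 hl
    linarith
  have hT : D.T (n - 1) (θ * (l + x + r)) xs ≤ D.T (n - 1) (θ * l + xs) xs := by
    have h1 := F9_comp (f := fun s => D.T (n - 1) s xs) (f' := fun s => D.Tl (n - 1) s xs)
      (fun s => D.dTl (n - 1) s xs hm1) (a := θ * (l + x + r)) (b := θ * l + xs) (M := 0)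
      (by rw [hls, hxs']; linarith)
      (fun s hs _ => by
        rw [neg_zero]
        exact D.Tlnn (n - 1) s xs hm1 (hls0.trans hs) hxs0)
    simpa using h1
  have hnm : (0 : ℝ) < (n : ℝ) - 1 := by linarith
  have hZ := F9_comp (f := fun s => D.Zt (n - 1) s xs (θ ^ 2 * y))
    (f' := fun s => D.Zl (n - 1) s xs (θ ^ 2 * y))
    (fun s => D.dZl (n - 1) s xs (θ ^ 2 * y) hm1) (a := θ * (l + x + r)) (b := l + xs)
    (M := C1 * (2 + l) / ((n : ℝ) - 1))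
    (by rw [hls, hxs']; linarith)
    (fun s hs hs' => by
      have hs0 : 0 ≤ s := hls0.trans hs
      have h1 := D.ZlA (n - 1) s xs (θ ^ 2 * y) hm1
      have h2 := D.Ann (n - 1) s xs (θ ^ 2 * y) hm1 hs0 hxs0 hys
      have h3 := D.R0R (n - 1) s xs (θ ^ 2 * y) hm1 hs0 hxs0 hys
      have h4 := D.crude (n - 1) s xs (θ ^ 2 * y) hm1 hs0 hxs0 hxsb hys
      rw [hcast] at h4
      have h5 : D.R (n - 1) s xs (θ ^ 2 * y) ≤ C1 * (2 + l) / ((n : ℝ) - 1) := by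
        rw [le_div_iff₀ hnm]
        have h6 : C1 * (1 + s) ≤ C1 * (2 + l) := by
          apply mul_le_mul_of_nonneg_left _ hC1
          linarith
        linarith
      linarith)
  have hgap : l + xs - θ * (l + x + r) ≤ (l + Y) / (n : ℝ) := by
    have h1 : l + xs - θ * (l + x + r) = l / (n : ℝ) + θ * r := by
      rw [hls, hxs', hθ]
      ring
    rw [h1, add_div]
    have h2 : θ * r ≤ 1 * r := mul_le_mul_of_nonneg_right hθ1 hr0
    have h3 : r ≤ Y / (n : ℝ) := by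
      rw [hr, div_le_div_iff₀ (by positivity) hn0]
      nlinarith
    linarith
  have hM0 : 0 ≤ C1 * (2 + l) / ((n : ℝ) - 1) := by positivity
  have hprod : C1 * (2 + l) / ((n : ℝ) - 1) * (l + xs - θ * (l + x + r)) ≤
      4 * C1 * (1 + Y) * ((1 + l) ^ 2 / (n : ℝ) ^ 2) := by
    calc C1 * (2 + l) / ((n : ℝ) - 1) * (l + xs - θ * (l + x + r))
        ≤ C1 * (2 + l) / ((n : ℝ) - 1) * ((l + Y) / (n : ℝ)) :=
          mul_le_mul_of_nonneg_left hgap hM0
      _ ≤ (C1 * (2 * (1 + l)) / ((n : ℝ) / 2)) * ((1 + Y) * (1 + l) / (n : ℝ)) := by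
          apply mul_le_mul _ _ (by positivity) (by positivity)
          · apply div_le_div₀ (by positivity) _ (by positivity) (by linarith)
            apply mul_le_mul_of_nonneg_left _ hC1
            linarith
          · apply div_le_div_of_nonneg_right _ hn0.le
            nlinarith
      _ = 4 * C1 * (1 + Y) * ((1 + l) ^ 2 / (n : ℝ) ^ 2) := by
          field_simp
          ring
  have hlast : y / (8 * (n : ℝ) ^ 2) ≤ Y * ((1 + l) ^ 2 / (n : ℝ) ^ 2) := by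
    have h1 : y / (8 * (n : ℝ) ^ 2) ≤ Y * 1 / (n : ℝ) ^ 2 := by
      rw [div_le_div_iff₀ (by positivity) (by positivity)]
      have : 0 < (n : ℝ) ^ 2 := by positivity
      nlinarith
    have h2 : Y * 1 / (n : ℝ) ^ 2 ≤ Y * (1 + l) ^ 2 / (n : ℝ) ^ 2 := by
      apply div_le_div_of_nonneg_right _ (by positivity)
      apply mul_le_mul_of_nonneg_left _ hY.le
      nlinarith
    calc y / (8 * (n : ℝ) ^ 2) ≤ Y * (1 + l) ^ 2 / (n : ℝ) ^ 2 := h1.trans h2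
      _ = _ := by ring
  have hfin : (4 * C1 * (1 + Y) + Y) * (1 + l) ^ 2 / (n : ℝ) ^ 2 =
      4 * C1 * (1 + Y) * ((1 + l) ^ 2 / (n : ℝ) ^ 2) + Y * ((1 + l) ^ 2 / (n : ℝ) ^ 2) := by ring
  rw [hfin]
  have hTx : D.T (n - 1) (θ * (l + x)) (θ * x) = D.T (n - 1) (θ * l + θ * x) (θ * x) := by
    rw [mul_add]
  rw [hTx] at hrec
  linarith

end Pool.Agent.Lib.MP_9cae81_R
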