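import Pool.Agent.Lib.MP_9cae81_R.Defs

open Finset Filter MeasureTheory
open scoped BigOperators Topology

namespace Pool.Agent.Lib.MP_9cae81_R

/-- The explicit curve: `x + D (y) = 1` with `D y = 0` for `y ≤ 2/3` and
`D y = s² (5 + 455/(1+s) - 135/(1+s)² + 51/(1+s)³)/1000` for `s = y - 2/3 ≥ 0`. -/
noncomputable def DD (y : ℝ) : ℝ :=
  if y ≤ 2 / 3 then 0 else
    (y - 2 / 3) ^ 2 * (5 + 455 / (y + 1 / 3) - 135 / (y + 1 / 3) ^ 2 + 51 / (y + 1 / 3) ^ 3) / 1000

/-- Its derivative. -/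
noncomputable def DD' (y : ℝ) : ℝ :=
  if y ≤ 2 / 3 then 0 else
    (2 * (y - 2 / 3) * (5 + 455 / (y + 1 / 3) - 135 / (y + 1 / 3) ^ 2 + 51 / (y + 1 / 3) ^ 3) +
      (y - 2 / 3) ^ 2 * (-455 / (y + 1 / 3) ^ 2 + 270 / (y + 1 / 3) ^ 3 -
        153 / (y + 1 / 3) ^ 4)) / 1000

/-- `DD` written with `max`. -/
private theorem J1_DD_eq : DD = fun y : ℝ =>
    (max y (2 / 3) - 2 / 3) ^ 2 * (5 + 455 / (max y (2 / 3) + 1 / 3) -
      135 / (max y (2 / 3) + 1 / 3) ^ 2 + 51 / (max y (2 / 3) + 1 / 3) ^ 3) / 1000 := by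
  funext y
  unfold DD
  split_ifs with h
  · rw [max_eq_right h]; ring
  · rw [max_eq_left (le_of_lt (not_le.1 h))]

/-- `DD'` written with `max`. -/
private theorem J1_DD'_eq : DD' = fun y : ℝ =>
    (2 * (max y (2 / 3) - 2 / 3) * (5 + 455 / (max y (2 / 3) + 1 / 3) -
      135 / (max y (2 / 3) + 1 / 3) ^ 2 + 51 / (max y (2 / 3) + 1 / 3) ^ 3) +
      (max y (2 / 3) - 2 / 3) ^ 2 * (-455 / (max y (2 / 3) + 1 / 3) ^ 2 +
        270 / (max y (2 / 3) + 1 / 3) ^ 3 - 153 / (max y (2 / 3) + 1 / 3) ^ 4)) / 1000 := by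
  funext y
  unfold DD'
  split_ifs with h
  · rw [max_eq_right h]; ring
  · rw [max_eq_left (le_of_lt (not_le.1 h))]

private theorem J1_pos (y : ℝ) : max y (2 / 3) + 1 / 3 ≠ 0 := by
  have : (2 / 3 : ℝ) ≤ max y (2 / 3) := le_max_right _ _
  linarith

private theorem J1_DD_cont : Continuous DD := by
  rw [J1_DD_eq]
  have h1 : Continuous fun y : ℝ => max y (2 / 3) := continuous_id.max continuous_const
  have h2 : ∀ y : ℝ, max y (2 / 3) + 1 / 3 ≠ 0 := J1_pos
  have h3 : Continuous fun y : ℝ => max y (2 / 3) + 1 / 3 := h1.add continuous_const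
  refine Continuous.div_const (Continuous.mul ((h1.sub continuous_const).pow 2) ?_) _
  refine Continuous.add (Continuous.sub (Continuous.add continuous_const ?_) ?_) ?_
  · exact continuous_const.div h3 h2
  · exact continuous_const.div (h3.pow 2) (fun y => pow_ne_zero _ (h2 y))
  · exact continuous_const.div (h3.pow 3) (fun y => pow_ne_zero _ (h2 y))

theorem DD'_cont : Continuous DD' := by
  rw [J1_DD'_eq]
  have h1 : Continuous fun y : ℝ => max y (2 / 3) := continuous_id.max continuous_const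
  have h2 : ∀ y : ℝ, max y (2 / 3) + 1 / 3 ≠ 0 := J1_pos
  have h3 : Continuous fun y : ℝ => max y (2 / 3) + 1 / 3 := h1.add continuous_const
  have h4 : ∀ c : ℝ, ∀ k : ℕ, Continuous fun y : ℝ => c / (max y (2 / 3) + 1 / 3) ^ k :=
    fun c k => continuous_const.div (h3.pow k) (fun y => pow_ne_zero _ (h2 y))
  have h5 : Continuous fun y : ℝ => 455 / (max y (2 / 3) + 1 / 3) := continuous_const.div h3 h2
  refine Continuous.div_const (Continuous.add (Continuous.mul (continuous_const.mul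
    (h1.sub continuous_const)) ?_) (Continuous.mul ((h1.sub continuous_const).pow 2) ?_)) _
  · exact Continuous.add (Continuous.sub (Continuous.add continuous_const h5) (h4 135 2)) (h4 51 3)
  · exact Continuous.sub (Continuous.add (h4 (-455) 2) (h4 270 3)) (h4 153 4)

private theorem J1_off {y : ℝ} (hy : y ≠ 2 / 3) : HasDerivAt DD (DD' y) y := by
  rcases lt_or_gt_of_ne hy with h | h
  · have e : DD =ᶠ[𝓝 y] fun _ => (0 : ℝ) := by
      filter_upwards [Iio_mem_nhds h] with z hz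
      unfold DD
      rw [if_pos (le_of_lt hz)]
    have e2 : DD' y = 0 := by unfold DD'; rw [if_pos h.le]
    rw [e2]
    exact (hasDerivAt_const y (0 : ℝ)).congr_of_eventuallyEq e
  · have e : DD =ᶠ[𝓝 y] fun y => (y - 2 / 3) ^ 2 * (5 + 455 / (y + 1 / 3) -
        135 / (y + 1 / 3) ^ 2 + 51 / (y + 1 / 3) ^ 3) / 1000 := by
      filter_upwards [Ioi_mem_nhds h] with z hz
      unfold DD
      rw [if_neg (not_le.2 hz)]
    refine HasDerivAt.congr_of_eventuallyEq ?_ e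
    have hz : y + 1 / 3 ≠ 0 := by have : (2 / 3 : ℝ) < y := h; linarith
    have a1 : HasDerivAt (fun y : ℝ => y - 2 / 3) 1 y := (hasDerivAt_id y).sub_const _
    have a2 : HasDerivAt (fun y : ℝ => y + 1 / 3) 1 y := (hasDerivAt_id y).add_const _
    have a3 := (a2.fun_pow 2)
    have a4 := (a2.fun_pow 3)
    have b1 := (hasDerivAt_const y (455 : ℝ)).fun_div a2 hz
    have b2 := (hasDerivAt_const y (135 : ℝ)).fun_div a3 (pow_ne_zero _ hz)
    have b3 := (hasDerivAt_const y (51 : ℝ)).fun_div a4 (pow_ne_zero _ hz)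
    have b := ((b1.const_add 5).fun_sub b2).fun_add b3
    have c := ((a1.fun_pow 2).fun_mul b).div_const 1000
    have e2 : DD' y = (2 * (y - 2 / 3) * (5 + 455 / (y + 1 / 3) - 135 / (y + 1 / 3) ^ 2 +
        51 / (y + 1 / 3) ^ 3) + (y - 2 / 3) ^ 2 * (-455 / (y + 1 / 3) ^ 2 +
        270 / (y + 1 / 3) ^ 3 - 153 / (y + 1 / 3) ^ 4)) / 1000 := by
      unfold DD'; rw [if_neg (not_le.2 h)]
    rw [e2]
    refine c.congr_deriv ?_
    field_simp
    ring

/-- `DD` is differentiable with continuous derivative `DD'` (at `2/3` both one-sided derivatives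
vanish).  One may write `DD y = (max 0 (y - 2/3))^2 * R (max y (2/3))`. -/
theorem DD_hasDerivAt (y : ℝ) : HasDerivAt DD (DD' y) y :=
  hasDerivAt_of_hasDerivAt_of_ne' (x := 2 / 3) (fun _ hz => J1_off hz)
    J1_DD_cont.continuousAt DD'_cont.continuousAt y

/-- `0 ≤ DD`, `0 ≤ DD'`, and `DD < 1` on `[0, 11/3]`; more precisely `DD y ≤ DD (11/3) < 1`.
With `z = y + 1/3 ∈ [1,4]`: `1000 DD' = H/z^4 * (z-1)` with
`H = 2 (5 z^3 + 455 z^2 - 135 z + 51) z - (z-1)(455 z^2 - 270 z + 153) > 0` for `z ≥ 1`, and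
`1000 DD (11/3) = 9 (5 + 455/4 - 135/16 + 51/64) = 999.98..`. -/
theorem DD_range {y : ℝ} (hy : 0 ≤ y) (hy1 : y ≤ 11 / 3) :
    0 ≤ DD y ∧ DD y < 1 ∧ 0 ≤ DD' y := by
  by_cases h : y ≤ 2 / 3
  · unfold DD DD'
    rw [if_pos h, if_pos h]
    exact ⟨le_refl _, zero_lt_one, le_refl _⟩
  · obtain ⟨s, hs⟩ : ∃ s : ℝ, y = s + 2 / 3 := ⟨y - 2 / 3, by ring⟩
    have hs0 : 0 < s := by have := not_le.1 h; linarith
    have hs3 : s ≤ 3 := by linarith
    have hz : (0 : ℝ) < 1 + s := by linarith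
    have hz' : (1 + s : ℝ) ≠ 0 := hz.ne'
    have e1 : DD y = s ^ 2 * (5 * (1 + s) ^ 3 + 455 * (1 + s) ^ 2 - 135 * (1 + s) + 51) /
        (1000 * (1 + s) ^ 3) := by
      unfold DD
      rw [if_neg h, hs, show s + 2 / 3 - 2 / 3 = s by ring, show s + 2 / 3 + 1 / 3 = 1 + s by ring]
      field_simp
    have e2 : DD' y = s * (10 * s ^ 4 + 495 * s ^ 3 + 1880 * s ^ 2 + 1994 * s + 752) /
        (1000 * (1 + s) ^ 4) := by
      unfold DD'
      rw [if_neg h, hs, show s + 2 / 3 - 2 / 3 = s by ring, show s + 2 / 3 + 1 / 3 = 1 + s by ring]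
      field_simp
      ring
    refine ⟨?_, ?_, ?_⟩
    · rw [e1]
      have : 0 ≤ 5 * (1 + s) ^ 3 + 455 * (1 + s) ^ 2 - 135 * (1 + s) + 51 := by
        have : 5 * (1 + s) ^ 3 + 455 * (1 + s) ^ 2 - 135 * (1 + s) + 51 =
          5 * s ^ 3 + 470 * s ^ 2 + 790 * s + 376 := by ring
        rw [this]; positivity
      positivity
    · rw [e1, div_lt_one (by positivity)]
      have hv : 0 ≤ 3 - s := by linarith
      have key : 243 * (1000 * (1 + s) ^ 3 - s ^ 2 * (5 * (1 + s) ^ 3 + 455 * (1 + s) ^ 2 -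
          135 * (1 + s) + 51)) = 1000 * (3 - s) ^ 5 + 14000 * s * (3 - s) ^ 4 +
          69616 * s ^ 2 * (3 - s) ^ 3 + 140518 * s ^ 3 * (3 - s) ^ 2 + 85118 * s ^ 4 * (3 - s) +
          s ^ 5 := by ring
      have : 0 < 1000 * (3 - s) ^ 5 + 14000 * s * (3 - s) ^ 4 +
          69616 * s ^ 2 * (3 - s) ^ 3 + 140518 * s ^ 3 * (3 - s) ^ 2 + 85118 * s ^ 4 * (3 - s) +
          s ^ 5 := by positivity
      linarith
    · rw [e2]; positivity

end Pool.Agent.Lib.MP_9cae81_R
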