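import Pool.Agent.Lib.MP_9cae81_R.Defs
import Pool.Agent.Lib.MP_9cae81_R.Mg.G009
import Pool.Agent.Lib.MP_9cae81_R.Mg.G001
import Pool.Agent.Lib.MP_9cae81_R.Mg.G006
import Pool.Agent.Lib.MP_9cae81_R.Mg.G008

open Finset Filter MeasureTheory
open scoped BigOperators Topology

namespace Pool.Agent.Lib.MP_9cae81_R

/-- **The curve theorem** for the model with independent clauses.

Proof.  Let `m0 > 0` be the minimum of `φ` on `[0,Y]` and `δ = min (m0/2) (min ((φ y0 - x0)/2) (1/2))`.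
`kappa_sel` gives `κ`.  Apply `cor_main` to `φ' = φ - δ` (same derivative), `xb = 1 - δ/2`
(`0 < φ' ≤ 1 - δ < xb`), `ε1 = δ/4`, and the data of `cor_data`; `C1 = 1/(1-xb)^2 ≥ 0`;
`x0 < φ y0 - δ`.  `D.Zt n 0 x0 y0 + D.T n 0 x0 = ZZ n 0 x0 y0`. -/
theorem curve_main {Y : ℝ} (hY : 0 < Y) {φ dφ : ℝ → ℝ} (dp : ∀ y, HasDerivAt φ (dφ y) y)
    (cp' : Continuous dφ) (range : ∀ y, 0 ≤ y → y ≤ Y → 0 < φ y ∧ φ y ≤ 1)
    (h : ∀ y, 0 ≤ y → y ≤ Y → ∃ k : ℝ, 0 ≤ k ∧ ∀ t : ℝ, 0 ≤ t → t ≤ 1 / 2 →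
      0 ≤ (1 - φ y) * (1 - t) + (1 - 3 / 2 * y) * t + 2 * y * t ^ 2 + k * t * (-dφ y - t))
    {x0 y0 : ℝ} (hx0 : 0 ≤ x0) (hx : x0 < φ y0) (hy0 : 0 ≤ y0) (hy : y0 < Y) :
    Tendsto (fun n => ZZ n 0 x0 y0) atTop (𝓝 0) := by
  have cφ : Continuous φ := by
    rw [continuous_iff_continuousAt]
    exact fun y => (dp y).continuousAt
  obtain ⟨ym, hym, hmin⟩ := isCompact_Icc.exists_isMinOn (Set.nonempty_Icc.2 hY.le)
    (cφ.continuousOn (s := Set.Icc (0 : ℝ) Y))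
  have hm0 : 0 < φ ym := (range ym hym.1 hym.2).1
  have hmin' : ∀ y, 0 ≤ y → y ≤ Y → φ ym ≤ φ y := fun y h1 h2 => hmin ⟨h1, h2⟩
  obtain ⟨δ, hδ0, hδ1, hδ2, hδ3⟩ : ∃ δ : ℝ, 0 < δ ∧ δ ≤ φ ym / 2 ∧ δ ≤ (φ y0 - x0) / 2 ∧
      δ ≤ 1 / 2 := by
    refine ⟨min (φ ym / 2) (min ((φ y0 - x0) / 2) (1 / 2)), ?_, min_le_left _ _,
      (min_le_right _ _).trans (min_le_left _ _), (min_le_right _ _).trans (min_le_right _ _)⟩
    refine lt_min (by linarith) (lt_min (by linarith) (by norm_num))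
  obtain ⟨κ, dκ, dk, ck, kpos, slack⟩ := kappa_sel hδ0 dp cp' h
  have hxb0 : 0 < 1 - δ / 2 := by linarith
  have hxb1 : 1 - δ / 2 < 1 := by linarith
  obtain ⟨ε, hε, hε0, D, hD⟩ := cor_data (Y := Y) hxb0 hxb1 hY
  have hC1 : (0 : ℝ) ≤ 1 / (1 - (1 - δ / 2)) ^ 2 := by positivity
  have dp' : ∀ y, HasDerivAt (fun y => φ y - δ) (dφ y) y := fun y => (dp y).sub_const δ
  have key := cor_main D hε hε0 hxb0 hxb1 hY hC1 (φ := fun y => φ y - δ) dp' cp' dk ck kpos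
    (fun y h1 h2 => ⟨by have := hmin' y h1 h2; show 0 < φ y - δ; linarith,
      by have := (range y h1 h2).2; show φ y - δ < 1 - δ / 2; linarith⟩)
    (ε1 := δ / 4) (by linarith) slack hx0 (by show x0 < φ y0 - δ; linarith) hy0 hy
  refine key.congr fun n => ?_
  exact hD n 0 x0 y0

end Pool.Agent.Lib.MP_9cae81_R
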