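import Pool.Agent.Lib.MP_9cae81_R.Defs
import Pool.Agent.Lib.MP_9cae81_R.Mg.G009

open Finset Filter MeasureTheory
open scoped BigOperators Topology

namespace Pool.Agent.Lib.MP_9cae81_R

variable {ι : Type} [Fintype ι] [DecidableEq ι]

/-- The value of `g` averaged over `m` independent samples from `π`. -/
noncomputable def iid (π : ι → ℝ) (g : Finset ι → ℝ) (m : ℕ) : ℝ :=
  ∑ c : Fin m → ι, (∏ i, π (c i)) * g (Finset.univ.image c)

/-- `iid` with a base set. -/
noncomputable def I1_it (π : ι → ℝ) (g : Finset ι → ℝ) (k : ℕ) (F : Finset ι) : ℝ :=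
  ∑ c : Fin k → ι, (∏ i, π (c i)) * g (F ∪ Finset.univ.image c)

theorem I1_it_empty (π : ι → ℝ) (g : Finset ι → ℝ) (k : ℕ) : I1_it π g k ∅ = iid π g k := by
  unfold I1_it iid
  simp

omit [Fintype ι] in
theorem I1_image_cons {k : ℕ} (a : ι) (c : Fin k → ι) :
    Finset.univ.image (Fin.cons a c : Fin (k + 1) → ι) = insert a (Finset.univ.image c) := by
  ext x
  simp only [Finset.mem_image, Finset.mem_univ, true_and, Finset.mem_insert, Fin.exists_fin_succ,
    Fin.cons_zero, Fin.cons_succ]
  constructor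
  · rintro (h | h)
    · exact Or.inl h.symm
    · exact Or.inr h
  · rintro (h | h)
    · exact Or.inl h.symm
    · exact Or.inr h

theorem I1_it_succ (π : ι → ℝ) (g : Finset ι → ℝ) (k : ℕ) (F : Finset ι) :
    I1_it π g (k + 1) F = ∑ a, π a * I1_it π g k (insert a F) := by
  unfold I1_it
  rw [← (Fin.consEquiv (fun _ : Fin (k + 1) => ι)).sum_comp, Fintype.sum_prod_type]
  refine Finset.sum_congr rfl fun a _ => ?_
  rw [Finset.mul_sum]
  refine Finset.sum_congr rfl fun c _ => ?_
  simp only [Fin.consEquiv_apply, Fin.prod_univ_succ, Fin.cons_zero, Fin.cons_succ]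
  have him : Finset.univ.image ((Fin.consEquiv (fun _ : Fin (k + 1) => ι)) (a, c)) =
      insert a (Finset.univ.image c) := I1_image_cons a c
  rw [him]
  have : F ∪ insert a (Finset.univ.image c) = insert a F ∪ Finset.univ.image c := by
    ext x; simp only [Finset.mem_union, Finset.mem_insert]; tauto
  rw [this]
  ring

theorem I1_it_le {π : ι → ℝ} (hπ : ∀ c, 0 ≤ π c) {g : Finset ι → ℝ}
    (hg : ∀ F G : Finset ι, F ⊆ G → g G ≤ g F) (k : ℕ) (F : Finset ι) :
    I1_it π g k F ≤ iid π g k := by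
  unfold I1_it iid
  refine Finset.sum_le_sum fun c _ => ?_
  refine mul_le_mul_of_nonneg_left (hg _ _ Finset.subset_union_right) ?_
  exact Finset.prod_nonneg fun i _ => hπ _

theorem I1_iid_nonneg {π : ι → ℝ} (hπ : ∀ c, 0 ≤ π c) {g : Finset ι → ℝ}
    (hg0 : ∀ F, 0 ≤ g F) (k : ℕ) : 0 ≤ iid π g k := by
  unfold iid
  exact Finset.sum_nonneg fun c _ => mul_nonneg (Finset.prod_nonneg fun i _ => hπ _) (hg0 _)

theorem I1_iid_le_one {π : ι → ℝ} (hπ : ∀ c, 0 ≤ π c) (hπ1 : ∑ c, π c = 1) {g : Finset ι → ℝ}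
    (hg1 : ∀ F, g F ≤ 1) (k : ℕ) : iid π g k ≤ 1 := by
  unfold iid
  calc ∑ c : Fin k → ι, (∏ i, π (c i)) * g (Finset.univ.image c)
      ≤ ∑ c : Fin k → ι, (∏ i, π (c i)) * 1 := by
        refine Finset.sum_le_sum fun c _ => ?_
        exact mul_le_mul_of_nonneg_left (hg1 _) (Finset.prod_nonneg fun i _ => hπ _)
    _ = 1 := by
        simp only [mul_one]
        have := Fintype.piFinset_univ (α := Fin k) (β := fun _ => ι)
        have h2 := Finset.prod_univ_sum (fun _ : Fin k => (Finset.univ : Finset ι))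
          (fun _ c => π c)
        rw [Fintype.piFinset_univ] at h2
        rw [← h2]
        simp [hπ1]

theorem I1_EE_zero (g : Finset ι → ℝ) : EE (fun _ : ι => (0 : ℝ)) g = g ∅ := by
  unfold EE
  rw [Finset.sum_eq_single ∅]
  · simp [wt]
  · intro F _ hF
    obtain ⟨c, hc⟩ := Finset.nonempty_iff_ne_empty.2 hF
    have : wt (fun _ : ι => (0 : ℝ)) F = 0 := by
      unfold wt
      refine Finset.prod_eq_zero (Finset.mem_univ c) ?_
      simp [hc]
    rw [this, zero_mul]
  · intro h; exact absurd (Finset.mem_univ _) h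

theorem I1_deriv {π : ι → ℝ} (hπ1 : ∑ c, π c = 1) (g : Finset ι → ℝ) (k : ℕ) (s : ℝ) :
    HasDerivAt (fun t => EE (fun c => t * π c) (I1_it π g k))
      (EE (fun c => s * π c) (I1_it π g (k + 1)) - EE (fun c => s * π c) (I1_it π g k)) s := by
  have h := EE_hasDerivAt (fun _ : ι => (0 : ℝ)) π (I1_it π g k) s
  simp only [zero_add] at h
  refine h.congr_deriv ?_
  have h1 : EE (fun c => s * π c) (I1_it π g (k + 1)) =
      ∑ a, π a * EE (fun c => s * π c) (fun F => I1_it π g k (insert a F)) := by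
    have : I1_it π g (k + 1) = fun F => ∑ a, π a * I1_it π g k (insert a F) := by
      funext F; exact I1_it_succ π g k F
    rw [this, EE_sum]
    refine Finset.sum_congr rfl fun a _ => ?_
    rw [EE_mul_left]
  rw [h1]
  simp only [EE_sub, mul_sub, Finset.sum_sub_distrib]
  rw [← Finset.sum_mul, hπ1, one_mul]

theorem I1_claim {π : ι → ℝ} (hπ : ∀ c, 0 ≤ π c) (hπ1 : ∑ c, π c = 1) {g : Finset ι → ℝ}
    (hg0 : ∀ F, 0 ≤ g F) (hg1 : ∀ F, g F ≤ 1) (hg : ∀ F G : Finset ι, F ⊆ G → g G ≤ g F) (m : ℕ) :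
    ∀ j : ℕ, j ≤ m → ∀ t : ℝ, 0 ≤ t →
    EE (fun c => t * π c) (I1_it π g (m - j)) ≤
      iid π g m + ∑ i ∈ Finset.range j, Real.exp (-t) * t ^ i / i.factorial := by
  intro j
  induction j with
  | zero =>
    intro _ t ht
    simp only [Nat.sub_zero, Finset.range_zero, Finset.sum_empty, add_zero]
    calc EE (fun c => t * π c) (I1_it π g m) ≤ EE (fun c => t * π c) (fun _ => iid π g m) :=
          EE_mono (fun c => mul_nonneg ht (hπ c)) (fun F => I1_it_le hπ hg m F)
      _ = iid π g m := EE_const _ _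
  | succ j ih =>
    intro hj t ht
    have ih' := ih (by omega)
    set I := iid π g m with hI
    set k := m - (j + 1) with hk
    have hk1 : m - j = k + 1 := by omega
    rw [hk1] at ih'
    have hI0 : 0 ≤ I := I1_iid_nonneg hπ hg0 m
    -- the function G - h
    let G : ℝ → ℝ := fun s => 1 + I * (Real.exp s - 1) +
      ∑ i ∈ Finset.range j, s ^ (i + 1) / (i + 1).factorial
    let h : ℝ → ℝ := fun s => Real.exp s * EE (fun c => s * π c) (I1_it π g k)
    have hGd : ∀ s, HasDerivAt G (I * Real.exp s + ∑ i ∈ Finset.range j, s ^ i / i.factorial) s := by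
      intro s
      have h1 : HasDerivAt (fun s : ℝ => 1 + I * (Real.exp s - 1)) (I * Real.exp s) s := by
        have := (((Real.hasDerivAt_exp s).sub_const 1).const_mul I).const_add 1
        exact this
      have h2 : HasDerivAt (fun s : ℝ => ∑ i ∈ Finset.range j, s ^ (i + 1) / (i + 1).factorial)
          (∑ i ∈ Finset.range j, s ^ i / i.factorial) s := by
        refine HasDerivAt.fun_sum fun i _ => ?_
        have := (hasDerivAt_pow (i + 1) s).div_const ((i + 1).factorial : ℝ)
        refine this.congr_deriv ?_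
        rw [Nat.factorial_succ]
        push_cast
        have hne : (i : ℝ) + 1 ≠ 0 := by positivity
        have hf : (i.factorial : ℝ) ≠ 0 := by positivity
        field_simp
      exact h1.add h2
    have hhd : ∀ s, HasDerivAt h
        (Real.exp s * EE (fun c => s * π c) (I1_it π g (k + 1))) s := by
      intro s
      have := (Real.hasDerivAt_exp s).mul (I1_deriv hπ1 g k s)
      refine this.congr_deriv ?_
      ring
    have hmono : MonotoneOn (fun s => G s - h s) (Set.Ici (0 : ℝ)) := by
      refine monotoneOn_of_deriv_nonneg (convex_Ici 0) ?_ ?_ ?_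
      · exact fun s _ => ((hGd s).sub (hhd s)).continuousAt.continuousWithinAt
      · exact fun s _ => ((hGd s).sub (hhd s)).differentiableAt.differentiableWithinAt
      · intro s hs
        have hs0 : 0 ≤ s := by
          have : s ∈ Set.Ioi (0 : ℝ) := by simpa using hs
          exact le_of_lt this
        rw [((hGd s).fun_sub (hhd s)).deriv]
        have h1 := ih' s hs0
        have h2 : Real.exp s * EE (fun c => s * π c) (I1_it π g (k + 1)) ≤
            I * Real.exp s + ∑ i ∈ Finset.range j, s ^ i / i.factorial := by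
          calc Real.exp s * EE (fun c => s * π c) (I1_it π g (k + 1))
              ≤ Real.exp s * (I + ∑ i ∈ Finset.range j, Real.exp (-s) * s ^ i / i.factorial) :=
                mul_le_mul_of_nonneg_left h1 (Real.exp_pos s).le
            _ = I * Real.exp s + ∑ i ∈ Finset.range j, s ^ i / i.factorial := by
                rw [mul_add, Finset.mul_sum, mul_comm (Real.exp s) I]
                congr 1
                refine Finset.sum_congr rfl fun i _ => ?_
                rw [mul_div_assoc, ← mul_assoc, ← Real.exp_add]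
                simp
        linarith
    have h0 : h 0 ≤ 1 := by
      have : h 0 = iid π g k := by
        simp only [h, Real.exp_zero, one_mul, zero_mul]
        rw [I1_EE_zero, I1_it_empty]
      rw [this]
      exact I1_iid_le_one hπ hπ1 hg1 k
    have hG0 : G 0 = 1 := by
      simp only [G, Real.exp_zero, sub_self, mul_zero, add_zero]
      have : ∑ i ∈ Finset.range j, (0 : ℝ) ^ (i + 1) / (i + 1).factorial = 0 :=
        Finset.sum_eq_zero fun i _ => by simp
      rw [this, add_zero]
    have h3 : G 0 - h 0 ≤ G t - h t := hmono (Set.mem_Ici.2 le_rfl) (Set.mem_Ici.2 ht) ht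
    have h4 : h t ≤ G t := by linarith
    have h5 : G t ≤ I * Real.exp t + ∑ i ∈ Finset.range (j + 1), t ^ i / i.factorial := by
      rw [Finset.sum_range_succ']
      simp only [G, pow_zero, Nat.factorial_zero, Nat.cast_one, div_one]
      nlinarith
    have h6 : Real.exp t * EE (fun c => t * π c) (I1_it π g k) ≤
        I * Real.exp t + ∑ i ∈ Finset.range (j + 1), t ^ i / i.factorial := h4.trans h5
    have h7 : EE (fun c => t * π c) (I1_it π g k) =
        Real.exp (-t) * (Real.exp t * EE (fun c => t * π c) (I1_it π g k)) := by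
      rw [← mul_assoc, ← Real.exp_add]; simp
    rw [h7]
    calc Real.exp (-t) * (Real.exp t * EE (fun c => t * π c) (I1_it π g k))
        ≤ Real.exp (-t) * (I * Real.exp t + ∑ i ∈ Finset.range (j + 1), t ^ i / i.factorial) :=
          mul_le_mul_of_nonneg_left h6 (Real.exp_pos _).le
      _ = I + ∑ i ∈ Finset.range (j + 1), Real.exp (-t) * t ^ i / i.factorial := by
          rw [mul_add, Finset.mul_sum]
          congr 1
          · rw [mul_comm I, ← mul_assoc, ← Real.exp_add]; simp
          · refine Finset.sum_congr rfl fun i _ => ?_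
            rw [mul_div_assoc]

/-- **Poissonization.**  Proof.  Let `(P g) F = ∑ c, π c * g (insert c F)`; `P` preserves
antitone functions with values in `[0,1]` (`∑ π = 1`).  `(P^k g) F = ∑ over c : Fin k → ι of
(∏ π (c i)) * g (F ∪ image c)`, so `(P^k g) ∅ = iid π g k`.  Let `y_k(t) = EE (t π) (P^k g)`.  By
`EE_hasDerivAt`, `y_k' = y_{k+1} - y_k`.  Claim: `y_k(t) ≤ iid π g m + ∑_{j < m-k} exp(-t) t^j/j!` for
`k ≤ m`, `t ≥ 0`, by downward induction on `k`.  `k = m`: `(P^m g) F ≤ (P^m g) ∅ = iid π g m`.  Step: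
`h(t) = exp t * y_k t`, `h' = exp t * y_{k+1}(t) ≤ exp t * iid π g m + ∑_{j < m-k-1} t^j/j!`,
`h 0 = iid π g k ≤ 1`; integrate: `h t ≤ 1 + iid π g m (exp t - 1) + ∑_{1 ≤ j < m-k} t^j/j!
≤ exp t * iid π g m + ∑_{j < m-k} t^j/j!`. -/
theorem poisson_le {π : ι → ℝ} (hπ : ∀ c, 0 ≤ π c) (hπ1 : ∑ c, π c = 1) {g : Finset ι → ℝ}
    (hg0 : ∀ F, 0 ≤ g F) (hg1 : ∀ F, g F ≤ 1) (hg : ∀ F G : Finset ι, F ⊆ G → g G ≤ g F) (m : ℕ)
    {t : ℝ} (ht : 0 ≤ t) :
    EE (fun c => t * π c) g ≤ iid π g m + ∑ j ∈ Finset.range m, Real.exp (-t) * t ^ j / j.factorial := by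
  have h := I1_claim hπ hπ1 hg0 hg1 hg m m le_rfl t ht
  rw [Nat.sub_self] at h
  have h0 : I1_it π g 0 = g := by
    funext F
    unfold I1_it
    simp
  rw [h0] at h
  exact h

end Pool.Agent.Lib.MP_9cae81_R
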