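import Pool.Agent.Lib.MP_9cae81_R.Defs

open Finset Filter MeasureTheory
open scoped BigOperators Topology

namespace Pool.Agent.Lib.MP_9cae81_R

/-- Lower tail of the Poisson distribution. -/
theorem poisson_tail {r η : ℝ} (hr : 0 < r) (hη : 0 < η) :
    Tendsto (fun n : ℕ => ∑ j ∈ Finset.range ⌊r * (n : ℝ)⌋₊,
      Real.exp (-((1 + η) * r * n)) * ((1 + η) * r * n) ^ j / j.factorial) atTop (𝓝 0) := by
  have hlog : 0 < η - Real.log (1 + η) := by
    have h1 := Real.log_lt_sub_one_of_pos (x := 1 + η) (by linarith) (by linarith)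
    linarith
  have hlog0 : 0 ≤ Real.log (1 + η) := Real.log_nonneg (by linarith)
  have hup : ∀ n : ℕ, ∑ j ∈ Finset.range ⌊r * (n : ℝ)⌋₊,
      Real.exp (-((1 + η) * r * n)) * ((1 + η) * r * n) ^ j / j.factorial ≤
      Real.exp (-(r * (η - Real.log (1 + η)) * n)) := by
    intro n
    have hn : (0 : ℝ) ≤ n := Nat.cast_nonneg n
    have hrn : 0 ≤ r * n := by positivity
    set m := ⌊r * (n : ℝ)⌋₊ with hm
    have hmle : (m : ℝ) ≤ r * n := Nat.floor_le hrn
    have h1 : ∀ j ∈ Finset.range m,
        Real.exp (-((1 + η) * r * n)) * ((1 + η) * r * n) ^ j / j.factorial ≤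
        Real.exp (-((1 + η) * r * n)) * (1 + η) ^ m * ((r * n) ^ j / j.factorial) := by
      intro j hj
      have hjm : j ≤ m := (Finset.mem_range.1 hj).le
      have e : ((1 + η) * r * n) ^ j = (1 + η) ^ j * (r * n) ^ j := by
        rw [← mul_pow]; ring
      rw [e]
      have h2 : (1 + η) ^ j ≤ (1 + η) ^ m := pow_le_pow_right₀ (by linarith) hjm
      have h3 : 0 ≤ (r * n) ^ j / (j.factorial : ℝ) := by positivity
      calc Real.exp (-((1 + η) * r * n)) * ((1 + η) ^ j * (r * n) ^ j) / j.factorial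
          = Real.exp (-((1 + η) * r * n)) * (1 + η) ^ j * ((r * n) ^ j / j.factorial) := by ring
        _ ≤ Real.exp (-((1 + η) * r * n)) * (1 + η) ^ m * ((r * n) ^ j / j.factorial) := by
            gcongr
    refine (Finset.sum_le_sum h1).trans ?_
    rw [← Finset.mul_sum]
    have h4 : ∑ j ∈ Finset.range m, (r * n) ^ j / (j.factorial : ℝ) ≤ Real.exp (r * n) :=
      Real.sum_le_exp_of_nonneg hrn m
    have h5 : (1 + η) ^ m ≤ Real.exp (r * n * Real.log (1 + η)) := by
      have : (1 + η) ^ m = Real.exp (m * Real.log (1 + η)) := by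
        rw [Real.exp_nat_mul, Real.exp_log (by linarith)]
      rw [this]
      exact Real.exp_le_exp.2 (mul_le_mul_of_nonneg_right hmle hlog0)
    calc Real.exp (-((1 + η) * r * n)) * (1 + η) ^ m *
          ∑ j ∈ Finset.range m, (r * n) ^ j / (j.factorial : ℝ)
        ≤ Real.exp (-((1 + η) * r * n)) * Real.exp (r * n * Real.log (1 + η)) *
          Real.exp (r * n) := by
          gcongr
      _ = Real.exp (-(r * (η - Real.log (1 + η)) * n)) := by
          rw [← Real.exp_add, ← Real.exp_add]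
          congr 1
          ring
  have hlow : ∀ n : ℕ, 0 ≤ ∑ j ∈ Finset.range ⌊r * (n : ℝ)⌋₊,
      Real.exp (-((1 + η) * r * n)) * ((1 + η) * r * n) ^ j / j.factorial := by
    intro n
    refine Finset.sum_nonneg fun j _ => ?_
    positivity
  refine squeeze_zero hlow hup ?_
  have hc : 0 < r * (η - Real.log (1 + η)) := mul_pos hr hlog
  have h6 : Tendsto (fun n : ℕ => r * (η - Real.log (1 + η)) * (n : ℝ)) atTop atTop :=
    Tendsto.const_mul_atTop hc tendsto_natCast_atTop_atTop
  exact Real.tendsto_exp_neg_atTop_nhds_zero.comp h6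

end Pool.Agent.Lib.MP_9cae81_R
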