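import Pool.Agent.Lib.MP_9cae81_R.Defs
import Pool.Agent.Lib.MP_9cae81_R.A4
import Pool.Agent.Lib.MP_9cae81_R.I1
import Pool.Agent.Lib.MP_9cae81_R.I2

open Finset Filter MeasureTheory
open scoped BigOperators Topology

namespace Pool.Agent.Lib.MP_9cae81_R

/-- A `k`-clause: an injection giving its `k` distinct variables, in order, and `k` signs. -/
abbrev Clause (k n : ℕ) : Type := (Fin k ↪ Fin n) × (Fin k → Bool)

/-- A clause of the mixture: a `2`-clause or a `3`-clause. -/
abbrev MixedClause (n : ℕ) : Type := Clause 2 n ⊕ Clause 3 n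

/-- The assignment `σ` satisfies the clause. -/
def Satisfies {n : ℕ} (σ : Fin n → Bool) : MixedClause n → Prop
  | Sum.inl c => ∃ i, σ (c.1 i) = c.2 i
  | Sum.inr c => ∃ i, σ (c.1 i) = c.2 i

/-- Probability that one random clause of the mixture equals the given one. -/
noncomputable def clauseProb {n : ℕ} (p : ℝ) : MixedClause n → ℝ
  | Sum.inl _ => (1 - p) / (Fintype.card (Clause 2 n) : ℝ)
  | Sum.inr _ => p / (Fintype.card (Clause 3 n) : ℝ)

open Classical in
/-- The probability that `F_{n,m}(p)` is satisfiable. -/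
noncomputable def satProb (n m : ℕ) (p : ℝ) : ℝ :=
  ∑ F : Fin m → MixedClause n, (∏ i, clauseProb p (F i)) *
    (if ∃ σ : Fin n → Bool, ∀ i, Satisfies σ (F i) then 1 else 0)

private theorem I3_card (k n : ℕ) : (Fintype.card (Clause k n) : ℝ) = n.descFactorial k * 2 ^ k := by
  have : Fintype.card (Clause k n) = n.descFactorial k * 2 ^ k := by
    rw [Fintype.card_prod, Fintype.card_embedding_eq]
    simp
  rw [this]; push_cast; ring

private theorem I3_card2 {n : ℕ} (hn : 3 ≤ n) :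
    (Fintype.card (Clause 2 n) : ℝ) = n * (n - 1) * 4 := by
  rw [I3_card]
  obtain ⟨m, rfl⟩ : ∃ m, n = m + 3 := ⟨n - 3, by omega⟩
  have : (m + 3).descFactorial 2 = (m + 3) * (m + 2) := by
    simp [Nat.descFactorial_succ, Nat.descFactorial_zero]
    ring
  rw [this]; push_cast; ring

private theorem I3_card3 {n : ℕ} (hn : 3 ≤ n) :
    (Fintype.card (Clause 3 n) : ℝ) = n * (n - 1) * (n - 2) * 8 := by
  rw [I3_card]
  obtain ⟨m, rfl⟩ : ∃ m, n = m + 3 := ⟨n - 3, by omega⟩
  have : (m + 3).descFactorial 3 = (m + 3) * (m + 2) * (m + 1) := by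
    simp [Nat.descFactorial_succ, Nat.descFactorial_zero]
    ring
  rw [this]; push_cast; ring

private theorem I3_cp_nonneg {n : ℕ} {p : ℝ} (hp : 0 ≤ p) (hp1 : p ≤ 1) (c : MixedClause n) :
    0 ≤ clauseProb p c := by
  rcases c with c | c
  · exact div_nonneg (by linarith) (Nat.cast_nonneg _)
  · exact div_nonneg hp (Nat.cast_nonneg _)

private theorem I3_cp_sum {n : ℕ} (hn : 3 ≤ n) (p : ℝ) :
    ∑ c : MixedClause n, clauseProb p c = 1 := by
  have hnn : (3 : ℝ) ≤ n := by exact_mod_cast hn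
  have h2 : (Fintype.card (Clause 2 n) : ℝ) ≠ 0 := by
    rw [I3_card2 hn]
    have : (0 : ℝ) < n * (n - 1) * 4 := by
      have h1 : (0 : ℝ) < n := by linarith
      have h2 : (0 : ℝ) < n - 1 := by linarith
      positivity
    exact this.ne'
  have h3 : (Fintype.card (Clause 3 n) : ℝ) ≠ 0 := by
    rw [I3_card3 hn]
    have : (0 : ℝ) < n * (n - 1) * (n - 2) * 8 := by
      have h1 : (0 : ℝ) < n := by linarith
      have h2 : (0 : ℝ) < n - 1 := by linarith
      have h3 : (0 : ℝ) < n - 2 := by linarith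
      positivity
    exact this.ne'
  rw [Fintype.sum_sum_type]
  have e1 : ∑ a : Clause 2 n, clauseProb p (Sum.inl a : MixedClause n) = 1 - p := by
    simp only [clauseProb, Finset.sum_const, Finset.card_univ, nsmul_eq_mul]
    field_simp
  have e2 : ∑ a : Clause 3 n, clauseProb p (Sum.inr a : MixedClause n) = p := by
    simp only [clauseProb, Finset.sum_const, Finset.card_univ, nsmul_eq_mul]
    field_simp
  rw [e1, e2]; ring

/-- `satProb` lies in `[0,1]` (for `n ≥ 3` the clause probabilities sum to `1`;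
`Fintype.card (Clause k n) = n.descFactorial k * 2^k`, `Fintype.card_embedding_eq`). -/
theorem satProb_range {n : ℕ} (hn : 3 ≤ n) (m : ℕ) {p : ℝ} (hp : 0 ≤ p) (hp1 : p ≤ 1) :
    0 ≤ satProb n m p ∧ satProb n m p ≤ 1 ∧ ∑ c : MixedClause n, clauseProb p c = 1 := by
  have hs := I3_cp_sum hn p
  have h0 : ∀ F : Fin m → MixedClause n, 0 ≤ ∏ i, clauseProb p (F i) := fun F =>
    Finset.prod_nonneg fun i _ => I3_cp_nonneg hp hp1 _
  refine ⟨?_, ?_, hs⟩
  · unfold satProb
    refine Finset.sum_nonneg fun F _ => mul_nonneg (h0 F) ?_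
    split_ifs <;> norm_num
  · have h1 : ∑ F : Fin m → MixedClause n, ∏ i, clauseProb p (F i) = 1 := by
      rw [← Fintype.sum_pow, hs, one_pow]
    unfold satProb
    calc _ ≤ ∑ F : Fin m → MixedClause n, ∏ i, clauseProb p (F i) := by
          refine Finset.sum_le_sum fun F _ => ?_
          refine mul_le_of_le_one_right (h0 F) ?_
          split_ifs <;> norm_num
      _ = 1 := h1

/-- The clause as a clause of `Cl`. -/
private def I3_e (n : ℕ) : MixedClause n → Cl (Fin n)
  | Sum.inl c => cp (c.1 0, c.2 0) (c.1 1, c.2 1)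
  | Sum.inr c => ct (c.1 0, c.2 0) (c.1 1, c.2 1) (c.1 2, c.2 2)

private theorem I3_inj (n : ℕ) : Function.Injective (I3_e n) := by
  intro a b h
  rcases a with ⟨f, s⟩ | ⟨f, s⟩ <;> rcases b with ⟨g, t⟩ | ⟨g, t⟩
  · simp only [I3_e, cp, Sum.inr.injEq, Sum.inl.injEq, Prod.mk.injEq] at h
    obtain ⟨⟨h1, h2⟩, h3, h4⟩ := h
    have e1 : f = g := by
      ext i; fin_cases i
      · simp [h1]
      · simp [h3]
    have e2 : s = t := by
      funext i; fin_cases i
      · simp [h2]
      · simp [h4]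
    rw [e1, e2]
  · simp [I3_e, cp, ct] at h
  · simp [I3_e, cp, ct] at h
  · simp only [I3_e, ct, Sum.inr.injEq, Prod.mk.injEq] at h
    obtain ⟨⟨h1, h2⟩, ⟨h3, h4⟩, h5, h6⟩ := h
    have e1 : f = g := by
      ext i; fin_cases i
      · simp [h1]
      · simp [h3]
      · simp [h5]
    have e2 : s = t := by
      funext i; fin_cases i
      · simp [h2]
      · simp [h4]
      · simp [h6]
    rw [e1, e2]

private theorem I3_clT {n : ℕ} (σ : Fin n → Bool) (c : MixedClause n) :
    clT σ (I3_e n c) ↔ Satisfies σ c := by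
  rcases c with ⟨f, s⟩ | ⟨f, s⟩
  · constructor
    · intro h
      rcases h with h | h
      · exact ⟨0, h⟩
      · exact ⟨1, h⟩
    · rintro ⟨i, hi⟩
      fin_cases i
      · exact Or.inl hi
      · exact Or.inr hi
  · constructor
    · intro h
      rcases h with h | h | h
      · exact ⟨0, h⟩
      · exact ⟨1, h⟩
      · exact ⟨2, h⟩
    · rintro ⟨i, hi⟩
      fin_cases i
      · exact Or.inl hi
      · exact Or.inr (Or.inl hi)
      · exact Or.inr (Or.inr hi)

/-- Comparison of the Poissonized mixture with the independent-inclusion model.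

Proof.  The embedding `e` of `MixedClause n` in `Cl (Fin n)` sends a `2`-clause `(f, s)` to
`cp (f 0, s 0) (f 1, s 1)` and a `3`-clause to `ct ..`; `Satisfies σ c ↔ clT σ (e c)`.  With
`g F = if F satisfiable then 1 else 0` on sets of clauses, `g F = 1 - un (F.map e)`, so
`EE (t clauseProb) g = 1 - EE (t clauseProb) (fun F => un (F.map e)) ≥ 1 - EE (qs n 0 x y) un` by
`EE_embed`, as the intensities satisfy `t (1-p)/(4 n (n-1)) ≤ x/(4n)` and
`t p/(8 n (n-1)(n-2)) ≤ y/(8 n²)`. -/
theorem embed_le {n : ℕ} (hn : 3 ≤ n) {p t x y : ℝ} (hp : 0 ≤ p) (hp1 : p ≤ 1) (ht : 0 ≤ t)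
    (hx : 0 ≤ x) (hy : 0 ≤ y) (h2 : t * (1 - p) ≤ x * (n - 1))
    (h3 : t * p * n ≤ y * ((n - 1) * (n - 2))) :
    1 - ZZ n 0 x y ≤ EE (fun c : MixedClause n => t * clauseProb p c)
      (fun F => open Classical in
        if ∃ σ : Fin n → Bool, ∀ c ∈ F, Satisfies σ c then (1 : ℝ) else 0) := by
  have hnn : (3 : ℝ) ≤ n := by exact_mod_cast hn
  have hn0 : (0 : ℝ) < n := by linarith
  have hn1 : (0 : ℝ) < n - 1 := by linarith
  have hn2 : (0 : ℝ) < n - 2 := by linarith
  have key : EE (fun c : MixedClause n => t * clauseProb p c)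
      (fun F => un (F.map ⟨I3_e n, I3_inj n⟩)) ≤ ZZ n 0 x y := by
    refine EE_embed ⟨I3_e n, I3_inj n⟩ (fun c => mul_nonneg ht (I3_cp_nonneg hp hp1 c)) ?_ ?_ ?_
    · intro k
      exact qq_nonneg (by positivity) (by positivity) (by positivity) k
    · intro c
      rcases c with c | c
      · show t * ((1 - p) / (Fintype.card (Clause 2 n) : ℝ)) ≤ x / (4 * n)
        rw [I3_card2 hn, ← mul_div_assoc, div_le_div_iff₀ (by positivity) (by positivity)]
        nlinarith [mul_le_mul_of_nonneg_left h2 (show (0 : ℝ) ≤ 4 * n by positivity)]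
      · show t * (p / (Fintype.card (Clause 3 n) : ℝ)) ≤ y / (8 * (n : ℝ) ^ 2)
        rw [I3_card3 hn, ← mul_div_assoc, div_le_div_iff₀ (by positivity) (by positivity)]
        nlinarith [mul_le_mul_of_nonneg_left h3 (show (0 : ℝ) ≤ 8 * n by positivity)]
    · intro F G h
      exact un_sem.mono h
  have e : (fun F : Finset (MixedClause n) => open Classical in
        if ∃ σ : Fin n → Bool, ∀ c ∈ F, Satisfies σ c then (1 : ℝ) else 0) =
      fun F => (1 : ℝ) - un (F.map ⟨I3_e n, I3_inj n⟩) := by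
    funext F
    have : SatF (F.map ⟨I3_e n, I3_inj n⟩) ↔ ∃ σ : Fin n → Bool, ∀ c ∈ F, Satisfies σ c := by
      unfold SatF
      refine exists_congr fun σ => ?_
      simp only [Finset.mem_map, Function.Embedding.coeFn_mk, forall_exists_index, and_imp,
        forall_apply_eq_imp_iff₂, I3_clT]
    unfold un
    by_cases h : ∃ σ : Fin n → Bool, ∀ c ∈ F, Satisfies σ c
    · rw [if_pos h, if_pos (this.2 h)]; norm_num
    · rw [if_neg h, if_neg (fun h' => h (this.1 h'))]; norm_num
  rw [e, EE_sub, EE_const]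
  linarith

/-- **Transfer.**  Proof.  Choose `η > 0` with `(1+η)² (1-p) r ≤ x0`, `(1+η)² p r ≤ y0`; `t = (1+η) r n`.
For `n` large `t (1-p) ≤ x0 (n-1)` and `t p n ≤ y0 (n-1)(n-2)`, so `embed_le` and `poisson_le` (with
`m = ⌊r n⌋`, `iid (clauseProb p) g m = satProb n m p` because `∃ σ, ∀ i, Satisfies σ (F i)` iff
`∃ σ, ∀ c ∈ univ.image F, Satisfies σ c`) give
`1 - ZZ n 0 x0 y0 ≤ satProb n ⌊r n⌋ p + (Poisson tail)`; `poisson_tail` and `satProb ≤ 1`. -/
theorem transfer {p r x0 y0 : ℝ} (hp : 0 ≤ p) (hp1 : p ≤ 1) (hr : 0 < r)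
    (hx : (1 - p) * r < x0) (hy : p * r < y0)
    (h : Tendsto (fun n => ZZ n 0 x0 y0) atTop (𝓝 0)) :
    Tendsto (fun n : ℕ => satProb n ⌊r * (n : ℝ)⌋₊ p) atTop (𝓝 1) := by
  have hx0 : 0 < x0 := lt_of_le_of_lt (mul_nonneg (by linarith) hr.le) hx
  have hy0 : 0 < y0 := lt_of_le_of_lt (mul_nonneg hp hr.le) hy
  -- choice of η
  obtain ⟨η, hη, h1, h2⟩ : ∃ η : ℝ, 0 < η ∧ (1 + η) * ((1 - p) * r) < x0 ∧
      (1 + η) * (p * r) < y0 := by
    have c1 : Tendsto (fun η : ℝ => (1 + η) * ((1 - p) * r)) (𝓝[>] 0) (𝓝 ((1 + 0) * ((1 - p) * r))) :=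
      Tendsto.mono_left (((continuous_const.add continuous_id).mul continuous_const).tendsto 0)
        nhdsWithin_le_nhds
    have c2 : Tendsto (fun η : ℝ => (1 + η) * (p * r)) (𝓝[>] 0) (𝓝 ((1 + 0) * (p * r))) :=
      Tendsto.mono_left (((continuous_const.add continuous_id).mul continuous_const).tendsto 0)
        nhdsWithin_le_nhds
    have d1 := c1.eventually_lt_const (show (1 + 0) * ((1 - p) * r) < x0 by linarith)
    have d2 := c2.eventually_lt_const (show (1 + 0) * (p * r) < y0 by linarith)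
    obtain ⟨η, h1, h2, h3⟩ := (d1.and (d2.and self_mem_nhdsWithin)).exists
    exact ⟨η, h3, h1, h2⟩
  have hP := poisson_tail (r := r) hr hη
  set P : ℕ → ℝ := fun n : ℕ => ∑ j ∈ Finset.range ⌊r * (n : ℝ)⌋₊,
      Real.exp (-((1 + η) * r * n)) * ((1 + η) * r * n) ^ j / j.factorial with hPdef
  have hev : ∀ᶠ n : ℕ in atTop, 1 - ZZ n 0 x0 y0 - P n ≤ satProb n ⌊r * (n : ℝ)⌋₊ p := by
    have e1 : ∀ᶠ n : ℕ in atTop, x0 / (x0 - (1 + η) * ((1 - p) * r)) ≤ (n : ℝ) :=
      tendsto_natCast_atTop_atTop.eventually_ge_atTop _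
    have e2 : ∀ᶠ n : ℕ in atTop, 3 * y0 / (y0 - (1 + η) * (p * r)) ≤ (n : ℝ) :=
      tendsto_natCast_atTop_atTop.eventually_ge_atTop _
    filter_upwards [e1, e2, eventually_ge_atTop 3] with n g1 g2 g3
    have hnn : (3 : ℝ) ≤ n := by exact_mod_cast g3
    rw [div_le_iff₀ (by linarith)] at g1 g2
    have t0 : 0 ≤ (1 + η) * r * n := by positivity
    have k1 : (1 + η) * r * n * (1 - p) ≤ x0 * (n - 1) := by nlinarith
    have k2 : (1 + η) * r * n * p * n ≤ y0 * ((n - 1) * (n - 2)) := by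
      have := mul_le_mul_of_nonneg_right g2 (show (0 : ℝ) ≤ n by linarith)
      nlinarith
    have E := embed_le g3 hp hp1 t0 hx0.le hy0.le k1 k2
    have Q := poisson_le (π := (clauseProb p : MixedClause n → ℝ))
      (fun c => I3_cp_nonneg hp hp1 c) (I3_cp_sum g3 p)
      (g := fun F => open Classical in
        if ∃ σ : Fin n → Bool, ∀ c ∈ F, Satisfies σ c then (1 : ℝ) else 0)
      (fun F => by split_ifs <;> norm_num)
      (fun F => by split_ifs <;> norm_num)
      (fun F G hFG => by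
        by_cases hG : ∃ σ : Fin n → Bool, ∀ c ∈ G, Satisfies σ c
        · have hF : ∃ σ : Fin n → Bool, ∀ c ∈ F, Satisfies σ c := by
            obtain ⟨σ, hσ⟩ := hG
            exact ⟨σ, fun c hc => hσ c (hFG hc)⟩
          rw [if_pos hG, if_pos hF]
        · rw [if_neg hG]
          split_ifs <;> norm_num) ⌊r * (n : ℝ)⌋₊ t0
    have I : iid (clauseProb p : MixedClause n → ℝ) (fun F => open Classical in
        if ∃ σ : Fin n → Bool, ∀ c ∈ F, Satisfies σ c then (1 : ℝ) else 0) ⌊r * (n : ℝ)⌋₊ =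
        satProb n ⌊r * (n : ℝ)⌋₊ p := by
      unfold iid satProb
      refine Finset.sum_congr rfl fun F _ => ?_
      have hiff : (∃ σ : Fin n → Bool, ∀ c ∈ Finset.univ.image F, Satisfies σ c) ↔
          ∃ σ : Fin n → Bool, ∀ i, Satisfies σ (F i) := by
        refine exists_congr fun σ => ?_
        simp [Finset.mem_image]
      congr 1
      by_cases hs : ∃ σ : Fin n → Bool, ∀ i, Satisfies σ (F i)
      · rw [if_pos hs]
        exact if_pos (hiff.2 hs)
      · rw [if_neg hs]
        exact if_neg (fun h' => hs (hiff.1 h'))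
    rw [I] at Q
    have : P n = ∑ j ∈ Finset.range ⌊r * (n : ℝ)⌋₊,
      Real.exp (-((1 + η) * r * n)) * ((1 + η) * r * n) ^ j / j.factorial := rfl
    linarith
  have hlow : Tendsto (fun n => 1 - ZZ n 0 x0 y0 - P n) atTop (𝓝 1) := by
    have := (tendsto_const_nhds (x := (1 : ℝ))).sub h |>.sub hP
    simpa using this
  refine tendsto_of_tendsto_of_tendsto_of_le_of_le' hlow tendsto_const_nhds hev ?_
  filter_upwards [eventually_ge_atTop 3] with n g3
  exact (satProb_range g3 _ hp hp1).2.1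

end Pool.Agent.Lib.MP_9cae81_R
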