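import Pool.Agent.Lib.MP_9cae81_R.Defs
import Pool.Agent.Lib.MP_9cae81_R.H2
import Pool.Agent.Lib.MP_9cae81_R.I3
import Pool.Agent.Lib.MP_9cae81_R.Mg.G008

open Finset Filter MeasureTheory
open scoped BigOperators Topology

namespace Pool.Agent.Lib.MP_9cae81_R

/-- The general criterion. -/
theorem curve_region {Y : ℝ} (hY : 0 < Y) {φ dφ : ℝ → ℝ} (dp : ∀ y, HasDerivAt φ (dφ y) y)
    (cp' : Continuous dφ) (range : ∀ y, 0 ≤ y → y ≤ Y → 0 < φ y ∧ φ y ≤ 1)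
    (h : ∀ y, 0 ≤ y → y ≤ Y → ∃ k : ℝ, 0 ≤ k ∧ ∀ t : ℝ, 0 ≤ t → t ≤ 1 / 2 →
      0 ≤ (1 - φ y) * (1 - t) + (1 - 3 / 2 * y) * t + 2 * y * t ^ 2 + k * t * (-dφ y - t))
    {p r : ℝ} (hp : 0 ≤ p) (hp1 : p ≤ 1) (hr : 0 < r) (h3 : p * r < Y)
    (h2 : (1 - p) * r < φ (p * r)) :
    Tendsto (fun n : ℕ => satProb n ⌊r * (n : ℝ)⌋₊ p) atTop (𝓝 1) := by
  have cφ : Continuous φ := continuous_iff_continuousAt.2 fun y => (dp y).continuousAt
  have hpr : 0 ≤ p * r := mul_nonneg hp hr.le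
  have hqr : 0 ≤ (1 - p) * r := mul_nonneg (by linarith) hr.le
  -- choose `y0 > p r` with `y0 < Y` and `(1 - p) r < φ y0`
  have ev : ∀ᶠ y in 𝓝 (p * r), (1 - p) * r < φ y ∧ y < Y :=
    ((cφ.tendsto (p * r)).eventually (lt_mem_nhds h2)).and (gt_mem_nhds h3)
  obtain ⟨δ, hδ, hball⟩ := Metric.eventually_nhds_iff.1 ev
  have hy0 := hball (y := p * r + δ / 2) (by
    rw [Real.dist_eq]
    rw [show p * r + δ / 2 - p * r = δ / 2 by ring, abs_of_pos (by linarith)]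
    linarith)
  obtain ⟨x0, hx0, hx0'⟩ := exists_between hy0.1
  exact transfer hp hp1 hr hx0 (by linarith)
    (curve_main hY dp cp' range h (by linarith) hx0' (by linarith) hy0.2)

/-- **Explicit region.** -/
theorem explicit_region {p r : ℝ} (hp : 0 ≤ p) (hp1 : p ≤ 1) (hr : 0 < r)
    (h3 : p * r < 11 / 3) (h : (1 - p) * r + DD (p * r) < 1) :
    Tendsto (fun n : ℕ => satProb n ⌊r * (n : ℝ)⌋₊ p) atTop (𝓝 1) := by
  refine curve_region (Y := 11 / 3) (by norm_num) (φ := fun y => 1 - DD y)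
    (dφ := fun y => -DD' y) (fun y => (DD_hasDerivAt y).const_sub 1) DD'_cont.neg ?_ ?_ hp hp1 hr
    h3 (by linarith)
  · intro y hy hy1
    have := DD_range hy hy1
    exact ⟨by linarith, by linarith⟩
  · intro y hy hy1
    obtain ⟨k, hk, hk'⟩ := curve_cond hy hy1
    refine ⟨k, hk, fun t ht ht' => ?_⟩
    have := hk' t ht ht'
    have e : (1 - (1 - DD y)) * (1 - t) + (1 - 3 / 2 * y) * t + 2 * y * t ^ 2 +
        k * t * (-(-DD' y) - t) =
        DD y * (1 - t) + (1 - 3 / 2 * y) * t + 2 * y * t ^ 2 + k * t * (DD' y - t) := by ring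
    rw [e]
    exact this

/-- Random 3-SAT. -/
theorem three_sat {r : ℝ} (hr : 0 < r) (h : r < 11 / 3) :
    Tendsto (fun n : ℕ => satProb n ⌊r * (n : ℝ)⌋₊ 1) atTop (𝓝 1) := by
  have h1 : DD (1 * r) < 1 := (DD_range (by linarith) (by linarith)).2.1
  exact explicit_region zero_le_one le_rfl hr (by linarith) (by linarith)

end Pool.Agent.Lib.MP_9cae81_R
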